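import Pool.Agent.P8H83.ZE.Stm

/-!
Project ZE (helper83), package ALG (helper61): the weight argument.
-/

set_option autoImplicit false

namespace Pool.Agent.P8H83.ZE.Alg

open Module

variable {K : Type} [Field K] {G : TC K} {ζ : K} {q l : ℕ}

/-- elements of weight `e` -/
def Wt (ζ : K) (e : ℤ) {n : ℕ} (x : G.C n) : Prop := G.T n x = ζ ^ (-e) • x

lemma d_upow (n j : ℕ) (v : G.C n) : G.d n ((G.u n ^ j) v) = (G.u (n + 1) ^ j) (G.d n v) := by
  induction j generalizing v with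
  | zero => simp
  | succ j ih =>
    rw [pow_succ, pow_succ, Module.End.mul_apply, Module.End.mul_apply, ih, G.du]

lemma T_upow (hTu : ∀ n v, G.T n (G.u n v) = ζ • G.u n (G.T n v)) (n j : ℕ) (v : G.C n) :
    G.T n ((G.u n ^ j) v) = ζ ^ j • (G.u n ^ j) (G.T n v) := by
  induction j generalizing v with
  | zero => simp
  | succ j ih =>
    rw [pow_succ, Module.End.mul_apply, ih, hTu, map_smul, Module.End.mul_apply, smul_smul,
      pow_succ]

lemma Tpow_upow (hTu : ∀ n v, G.T n (G.u n v) = ζ • G.u n (G.T n v)) (n i j : ℕ) (v : G.C n) :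
    (G.T n ^ i) ((G.u n ^ j) v) = ζ ^ (i * j) • (G.u n ^ j) ((G.T n ^ i) v) := by
  induction i generalizing v with
  | zero => simp
  | succ i ih =>
    rw [pow_succ, Module.End.mul_apply, T_upow hTu, map_smul, ih, Module.End.mul_apply, smul_smul,
      ← pow_add]
    congr 2
    ring

lemma Wt_upow (hζ : ζ ≠ 0) (hTu : ∀ n v, G.T n (G.u n v) = ζ • G.u n (G.T n v)) {n : ℕ} {e : ℤ}
    {x : G.C n} (h : Wt ζ e x) (j : ℕ) : Wt ζ (e - j) ((G.u n ^ j) x) := by
  unfold Wt at h ⊢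
  rw [T_upow hTu, h, map_smul, smul_smul, ← zpow_natCast, ← zpow_add₀ hζ]
  congr 2
  ring

lemma Wt_sub {n : ℕ} {e : ℤ} {x y : G.C n} (h : Wt ζ e x) (h' : Wt ζ e y) : Wt ζ e (x - y) := by
  unfold Wt at h h' ⊢
  rw [map_sub, h, h', smul_sub]

lemma Wt_zero {n : ℕ} {e : ℤ} : Wt ζ e (0 : G.C n) := by
  unfold Wt
  simp

lemma Wt_congr (hζ : ζ ≠ 0) (hl : ζ ^ l = 1) {n : ℕ} {e e' : ℤ} (he : (l : ℤ) ∣ e' - e)
    {x : G.C n} (h : Wt ζ e x) : Wt ζ e' x := by
  unfold Wt at h ⊢
  rw [h]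
  congr 1
  obtain ⟨r, hr⟩ := he
  have h1 : -e = -e' + l * r := by linarith
  rw [h1, zpow_add₀ hζ, zpow_mul, zpow_natCast, hl, one_zpow, mul_one]

/-- the projection to weight `e` -/
noncomputable def pr (ζ : K) (l : ℕ) (e : ℤ) {n : ℕ} (x : G.C n) : G.C n :=
  (l : K)⁻¹ • ∑ j ∈ Finset.range l, ζ ^ (e * j) • (G.T n ^ j) x

lemma Wt_pr (hζ : ζ ≠ 0) (hl : ζ ^ l = 1) (hT : ∀ n v, (G.T n ^ l) v = v) (e : ℤ) {n : ℕ}
    (x : G.C n) : Wt ζ e (pr ζ l e x) := by
  unfold Wt pr
  rw [map_smul, map_sum, smul_comm (ζ ^ (-e))]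
  congr 1
  rw [Finset.smul_sum]
  set g : ℕ → G.C n := fun j => ζ ^ (e * j - e) • (G.T n ^ j) x with hg
  have h1 : ∀ j ∈ Finset.range l, G.T n (ζ ^ (e * (j : ℤ)) • (G.T n ^ j) x) = g (j + 1) := by
    intro j _
    rw [hg]
    simp only
    rw [map_smul, pow_succ', Module.End.mul_apply]
    congr 2
    push_cast
    ring
  have h2 : ∀ j ∈ Finset.range l, ζ ^ (-e) • ζ ^ (e * (j : ℤ)) • (G.T n ^ j) x = g j := by
    intro j _
    rw [hg]
    simp only
    rw [smul_smul, ← zpow_add₀ hζ]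
    congr 2
    ring
  rw [Finset.sum_congr rfl h1, Finset.sum_congr rfl h2]
  have h3 := Finset.sum_range_succ g l
  have h4 := Finset.sum_range_succ' g l
  have h5 : g l = g 0 := by
    rw [hg]
    simp only
    rw [hT, pow_zero, Module.End.one_apply]
    congr 1
    have : e * (l : ℤ) - e = (l : ℤ) * e + (e * ((0 : ℕ) : ℤ) - e) := by
      push_cast
      ring
    rw [this, zpow_add₀ hζ, zpow_mul, zpow_natCast, hl, one_zpow, one_mul]
  rw [h5] at h3
  exact add_right_cancel (h4.symm.trans h3)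

lemma Tpow_Wt (hζ : ζ ≠ 0) {n : ℕ} {e : ℤ} {x : G.C n} (h : Wt ζ e x) (j : ℕ) :
    (G.T n ^ j) x = ζ ^ (-(e * j)) • x := by
  induction j with
  | zero => simp
  | succ j ih =>
    unfold Wt at h
    rw [pow_succ, Module.End.mul_apply, h, map_smul, ih, smul_smul, ← zpow_add₀ hζ]
    congr 2
    push_cast
    ring

lemma pr_Wt (hζ : ζ ≠ 0) (hlK : (l : K) ≠ 0) {n : ℕ} {e : ℤ} {x : G.C n} (h : Wt ζ e x) :
    pr ζ l e x = x := by
  unfold pr
  have h1 : ∀ j ∈ Finset.range l, ζ ^ (e * (j : ℤ)) • (G.T n ^ j) x = x := by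
    intro j _
    rw [Tpow_Wt hζ h, smul_smul, ← zpow_add₀ hζ]
    simp
  rw [Finset.sum_congr rfl h1, Finset.sum_const, Finset.card_range, ← Nat.cast_smul_eq_nsmul K,
    smul_smul, inv_mul_cancel₀ hlK, one_smul]

lemma pr_upow (hζ : ζ ≠ 0) (hTu : ∀ n v, G.T n (G.u n v) = ζ • G.u n (G.T n v)) (e : ℤ) {n : ℕ}
    (j : ℕ) (x : G.C n) : pr ζ l e ((G.u n ^ j) x) = (G.u n ^ j) (pr ζ l (e + j) x) := by
  unfold pr
  rw [map_smul, map_sum]
  congr 1
  refine Finset.sum_congr rfl fun i _ => ?_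
  rw [Tpow_upow hTu, map_smul, smul_smul, ← zpow_natCast, ← zpow_add₀ hζ]
  congr 2
  push_cast
  ring

lemma Tpow_d {n : ℕ} (i : ℕ) (x : G.C n) :
    (G.T (n + 1) ^ i) (G.d n x) = G.d n ((G.T n ^ i) x) := by
  induction i generalizing x with
  | zero => simp
  | succ i ih =>
    rw [pow_succ, Module.End.mul_apply, ← G.dT, ih, pow_succ, Module.End.mul_apply]

lemma pr_d (e : ℤ) {n : ℕ} (x : G.C n) : pr ζ l e (G.d n x) = G.d n (pr ζ l e x) := by
  unfold pr
  rw [map_smul, map_sum]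
  congr 1
  refine Finset.sum_congr rfl fun i _ => ?_
  rw [map_smul, Tpow_d]

lemma Wt_d {n : ℕ} {e : ℤ} {x : G.C n} (h : Wt ζ e x) : Wt ζ e (G.d n x) := by
  unfold Wt at h ⊢
  rw [← G.dT, h, map_smul]

/-- degrees -/
def dg (q k : ℕ) : ℕ := if Even k then 1 else q

lemma dg_add (q k : ℕ) : dg q k + dg q (k + 1) = q + 1 := by
  unfold dg
  by_cases h : Even k
  · rw [if_pos h, if_neg (by simpa [Nat.even_add_one] using h)]
    ring
  · rw [if_neg h, if_pos (by simpa [Nat.even_add_one] using h)]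

lemma uu (hu : ∀ n v, (G.u n ^ (q + 1)) v = 0) (n k : ℕ) (x : G.C n) :
    (G.u n ^ dg q k) ((G.u n ^ dg q (k + 1)) x) = 0 := by
  rw [← Module.End.mul_apply, ← pow_add, dg_add, hu]

lemma uu' (hu : ∀ n v, (G.u n ^ (q + 1)) v = 0) (n k : ℕ) (x : G.C n) :
    (G.u n ^ dg q (k + 1)) ((G.u n ^ dg q k) x) = 0 := by
  rw [← Module.End.mul_apply, ← pow_add, add_comm, dg_add, hu]

/-- exactness with weights -/
lemma ex_wt (hζ : ζ ≠ 0) (hl : ζ ^ l = 1) (hlK : (l : K) ≠ 0) (hT : ∀ n v, (G.T n ^ l) v = v)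
    (hTu : ∀ n v, G.T n (G.u n v) = ζ • G.u n (G.T n v))
    (h1 : ∀ n v, G.u n v = 0 → ∃ w, (G.u n ^ q) w = v)
    (h2 : ∀ n v, (G.u n ^ q) v = 0 → ∃ w, G.u n w = v) (n k : ℕ) (e : ℤ) (x : G.C n)
    (hx : (G.u n ^ dg q (k + 1)) x = 0) (hw : Wt ζ e x) :
    ∃ w, Wt ζ (e + dg q k) w ∧ (G.u n ^ dg q k) w = x := by
  have h3 : ∃ w, (G.u n ^ dg q k) w = x := by
    unfold dg at hx ⊢
    by_cases h : Even k
    · rw [if_neg (by simpa [Nat.even_add_one] using h)] at hx
      rw [if_pos h, pow_one]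
      exact h2 n x hx
    · rw [if_pos (by simpa [Nat.even_add_one] using h), pow_one] at hx
      rw [if_neg h]
      exact h1 n x hx
  obtain ⟨w, hw'⟩ := h3
  refine ⟨pr ζ l (e + dg q k) w, Wt_pr hζ hl hT _ _, ?_⟩
  rw [← pr_upow hζ hTu, hw', pr_Wt hζ hlK hw]

/-- coboundaries with weights -/
lemma bd_wt (hζ : ζ ≠ 0) (hl : ζ ^ l = 1) (hlK : (l : K) ≠ 0) (hT : ∀ n v, (G.T n ^ l) v = v)
    (n : ℕ) (e : ℤ) (x : G.C (n + 1)) (hx : x ∈ G.bnd (n + 1)) (hw : Wt ζ e x) :
    ∃ y, Wt ζ e y ∧ G.d n y = x := by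
  obtain ⟨y, hy⟩ := hx
  refine ⟨pr ζ l e y, Wt_pr hζ hl hT _ _, ?_⟩
  rw [← pr_d, hy, pr_Wt hζ hlK hw]

/-- cocycles of nonzero weight are coboundaries -/
lemma co_wt (hc : ∀ n v, G.d n v = 0 → G.T n v - v ∈ G.bnd n) (n : ℕ) (e : ℤ) (x : G.C n)
    (hx : G.d n x = 0) (hw : Wt ζ e x) (he : ζ ^ (-e) ≠ 1) : x ∈ G.bnd n := by
  have h1 := hc n x hx
  unfold Wt at hw
  rw [hw] at h1
  have h2 : ζ ^ (-e) • x - x = (ζ ^ (-e) - 1) • x := by rw [sub_smul, one_smul]
  rw [h2] at h1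
  have h3 := (G.bnd n).smul_mem (ζ ^ (-e) - 1)⁻¹ h1
  rwa [smul_smul, inv_mul_cancel₀ (sub_ne_zero.mpr he), one_smul] at h3

/-- the weights of the sequence -/
def ee (q k : ℕ) : ℤ := ((k / 2 : ℕ) + 1) * (q + 1) - if Even k then 1 else 0

lemma ee_zero (q : ℕ) : ee q 0 = q := by
  unfold ee
  simp

lemma ee_succ (q k : ℕ) : ee q (k + 1) = ee q k + dg q k := by
  unfold ee dg
  by_cases h : Even k
  · obtain ⟨r, hr⟩ := h
    have e1 : (k + 1) / 2 = k / 2 := by omega
    have h1 : Even k := ⟨r, hr⟩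
    rw [if_neg (by simpa [Nat.even_add_one] using h1), if_pos h1, if_pos h1, e1]
    push_cast
    ring
  · have h1 := h
    rw [Nat.not_even_iff_odd] at h
    obtain ⟨r, hr⟩ := h
    have e1 : (k + 1) / 2 = k / 2 + 1 := by omega
    rw [if_pos (by simpa [Nat.even_add_one] using h1), if_neg h1, if_neg h1, e1]
    push_cast
    ring

/-- the sequences -/
structure Sq (G : TC K) (ζ : K) (q : ℕ) (c : G.C 0) (v : ∀ k, G.C k) : Prop where
  c0 : (G.u 0 ^ q) (v 0) = c
  dv : ∀ k, G.d k (v k) = (G.u (k + 1) ^ dg q k) (v (k + 1))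
  wt : ∀ k, Wt ζ (ee q k) (v k)

lemma Sq_sub {c : G.C 0} {v z : ∀ k, G.C k} (hv : Sq G ζ q c v) (hz : Sq G ζ q 0 z) :
    Sq G ζ q c (fun k => v k - z k) := by
  refine ⟨?_, fun k => ?_, fun k => Wt_sub (hv.wt k) (hz.wt k)⟩
  · rw [map_sub, hv.c0, hz.c0, sub_zero]
  · rw [map_sub, map_sub, hv.dv, hz.dv]

/-- case (A) -/
lemma caseA (hζ : ζ ≠ 0) (hTu : ∀ n v, G.T n (G.u n v) = ζ • G.u n (G.T n v))
    (hu : ∀ n v, (G.u n ^ (q + 1)) v = 0) {c : G.C 0} {v : ∀ k, G.C k} (hv : Sq G ζ q c v)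
    (k : ℕ) (h0 : ∀ j, k + 1 < j → v j = 0) (y : G.C k) (hy : Wt ζ (ee q (k + 1)) y)
    (hd : G.d k y = v (k + 1)) : ∃ v', Sq G ζ q c v' ∧ ∀ j, k + 1 ≤ j → v' j = 0 := by
  classical
  set z : ∀ j, G.C j := Function.update (Function.update (fun j => (0 : G.C j)) (k + 1) (G.d k y))
    k ((G.u k ^ dg q k) y) with hz
  have z1 : z k = (G.u k ^ dg q k) y := by
    rw [hz, Function.update_self]
  have z2 : z (k + 1) = G.d k y := by
    rw [hz, Function.update_of_ne (by omega), Function.update_self]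
  have z3 : ∀ j, j ≠ k → j ≠ k + 1 → z j = 0 := by
    intro j h1 h2
    rw [hz, Function.update_of_ne h1, Function.update_of_ne h2]
  have hwk : Wt ζ (ee q k) (z k) := by
    rw [z1]
    have := Wt_upow hζ hTu hy (dg q k)
    rw [ee_succ] at this
    simpa using this
  have hS : Sq G ζ q 0 z := by
    refine ⟨?_, fun j => ?_, fun j => ?_⟩
    · rcases Nat.eq_zero_or_pos k with h | h
      · subst h
        rw [z1]
        have := uu' hu 0 0 y
        simpa [dg] using this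
      · rw [z3 0 (by omega) (by omega), map_zero]
    · rcases eq_or_ne j k with h | h
      · subst h
        rw [z1, z2, d_upow]
      · rcases eq_or_ne j (k + 1) with h' | h'
        · subst h'
          rw [z2, G.dd, z3 (k + 1 + 1) (by omega) (by omega), map_zero]
        · rw [z3 j h h', map_zero]
          rcases eq_or_ne (j + 1) k with h'' | h''
          · subst h''
            rw [z1, uu hu]
          · rw [z3 (j + 1) h'' (by omega), map_zero]
    · rcases eq_or_ne j k with h | h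
      · subst h
        exact hwk
      · rcases eq_or_ne j (k + 1) with h' | h'
        · subst h'
          rw [z2, hd]
          exact hv.wt (k + 1)
        · rw [z3 j h h']
          exact Wt_zero
  refine ⟨_, Sq_sub hv hS, fun j hj => ?_⟩
  rcases eq_or_ne j (k + 1) with h' | h'
  · subst h'
    rw [z2, hd, sub_self]
  · rw [z3 j (by omega) h', h0 j (by omega), sub_zero]

/-- the auxiliary weights in case (B) -/
def ff (q a k : ℕ) : ℤ := if Even k then -(((q : ℤ) + 1) * (a - (k / 2 : ℕ)))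
  else -(((q : ℤ) + 1) * (a - (k / 2 : ℕ) - 1) + 1)

lemma ff_succ (q a k : ℕ) : ff q a (k + 1) - dg q (k + 1) = ff q a k := by
  unfold ff dg
  by_cases h : Even k
  · obtain ⟨r, hr⟩ := h
    have e1 : (k + 1) / 2 = k / 2 := by omega
    have h1 : Even k := ⟨r, hr⟩
    have h2 : ¬ Even (k + 1) := by simpa [Nat.even_add_one] using h1
    rw [if_neg h2, if_neg h2, if_pos h1, e1]
    push_cast
    ring
  · have h1 := h
    have h2 : Even (k + 1) := by simpa [Nat.even_add_one] using h1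
    rw [Nat.not_even_iff_odd] at h
    obtain ⟨r, hr⟩ := h
    have e1 : (k + 1) / 2 = k / 2 + 1 := by omega
    rw [if_pos h2, if_pos h2, if_neg h1, e1]
    push_cast
    ring

/-- exponents of the correction -/
def rr (q k : ℕ) : ℕ := if Even k then 0 else q - 1

lemma rr_dg (hq : 1 ≤ q) (k : ℕ) : rr q k + dg q (k + 1) = dg q k + rr q (k + 1) := by
  unfold rr dg
  by_cases h : Even k
  · have h2 : ¬ Even (k + 1) := by simpa [Nat.even_add_one] using h
    rw [if_pos h, if_neg h2, if_pos h, if_neg h2]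
    omega
  · have h2 : Even (k + 1) := by simpa [Nat.even_add_one] using h
    rw [if_neg h, if_pos h2, if_neg h, if_pos h2]
    omega

lemma ee_ff (hq : 1 ≤ q) (a k : ℕ) : ee q k - (ff q a k - rr q k) = (a + 1) * (q + 1) - 1 := by
  unfold ee ff rr
  by_cases h : Even k
  · rw [if_pos h, if_pos h, if_pos h]
    push_cast
    ring
  · rw [if_neg h, if_neg h, if_neg h]
    push_cast [Nat.cast_sub hq]
    ring

lemma nz1 (hcop : Nat.Coprime (q + 1) l) (b : ℕ) (h1 : 1 ≤ b) (h2 : b < l) :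
    ¬ (l : ℤ) ∣ ((q : ℤ) + 1) * b := by
  intro h
  have h3 : l ∣ (q + 1) * b := by exact_mod_cast h
  have h4 := (Nat.Coprime.symm hcop).dvd_of_dvd_mul_left h3
  have := Nat.le_of_dvd (by omega) h4
  omega

lemma nz2 (hcop : Nat.Coprime (q + 1) l) (a b : ℕ) (hb : b ≤ a)
    (hd : (l : ℤ) ∣ ((a : ℤ) + 1) * (q + 1) - 1) (hh : 2 * (a + 1) ≤ l) :
    ¬ (l : ℤ) ∣ ((q : ℤ) + 1) * b + 1 := by
  intro h
  have h1 := dvd_add h hd
  have h2 : ((q : ℤ) + 1) * b + 1 + (((a : ℤ) + 1) * (q + 1) - 1) =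
      ((q : ℤ) + 1) * ((a + 1 + b : ℕ) : ℤ) := by
    push_cast
    ring
  rw [h2] at h1
  exact nz1 hcop (a + 1 + b) (by omega) (by omega) h1

/-- case (B) -/
lemma caseB (hq : 1 ≤ q) (hζ : ζ ≠ 0) (hpr : IsPrimitiveRoot ζ l) (hlK : (l : K) ≠ 0)
    (hT : ∀ n v, (G.T n ^ l) v = v)
    (hTu : ∀ n v, G.T n (G.u n v) = ζ • G.u n (G.T n v))
    (hu : ∀ n v, (G.u n ^ (q + 1)) v = 0)
    (hc : ∀ n v, G.d n v = 0 → G.T n v - v ∈ G.bnd n) {c : G.C 0} {v : ∀ k, G.C k}
    (hv : Sq G ζ q c v) (a : ℕ) (h0 : ∀ j, 2 * a < j → v j = 0)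
    (hcop : Nat.Coprime (q + 1) l)
    (hd : (l : ℤ) ∣ ((a : ℤ) + 1) * (q + 1) - 1) (hh : 2 * (a + 1) ≤ l) :
    ∃ v', Sq G ζ q c v' ∧ ∀ j, 2 * a ≤ j → v' j = 0 := by
  classical
  have hl := hpr.pow_eq_one
  have hdv : G.d (2 * a) (v (2 * a)) = 0 := by
    rw [hv.dv, h0 (2 * a + 1) (by omega), map_zero]
  have hne : ∀ e : ℤ, ¬ (l : ℤ) ∣ e → ζ ^ (-e) ≠ 1 := by
    intro e he h
    rw [hpr.zpow_eq_one_iff_dvd] at h
    exact he ((dvd_neg).mp h)
  have hff : ∀ k, k < 2 * a → ¬ (l : ℤ) ∣ ff q a k := by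
    intro k hk h
    unfold ff at h
    by_cases he : Even k
    · rw [if_pos he, dvd_neg] at h
      obtain ⟨r, hr⟩ := he
      have e1 : ((a : ℤ) - (k / 2 : ℕ)) = ((a - k / 2 : ℕ) : ℤ) := by
        rw [Nat.cast_sub (by omega)]
      rw [e1] at h
      exact nz1 hcop (a - k / 2) (by omega) (by omega) h
    · rw [if_neg he, dvd_neg] at h
      rw [Nat.not_even_iff_odd] at he
      obtain ⟨r, hr⟩ := he
      have e1 : ((a : ℤ) - (k / 2 : ℕ) - 1) = ((a - k / 2 - 1 : ℕ) : ℤ) := by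
        rw [Nat.cast_sub (by omega), Nat.cast_sub (by omega)]
        simp
      rw [e1] at h
      exact nz2 hcop a (a - k / 2 - 1) (by omega) hd hh h
  have hff2 : ff q a (2 * a) = 0 := by
    unfold ff
    rw [if_pos (by simp)]
    simp
  have hee2 : ee q (2 * a) = ((a : ℤ) + 1) * (q + 1) - 1 := by
    unfold ee
    rw [if_pos (by simp)]
    simp
  -- the auxiliary sequence
  have hrec : ∀ j, j ≤ 2 * a → ∃ y : ∀ k, G.C k, y (2 * a) = v (2 * a) ∧
      (∀ k, 2 * a - j ≤ k → k < 2 * a →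
        G.d k (y k) = (G.u (k + 1) ^ dg q (k + 1)) (y (k + 1))) ∧
      ∀ k, 2 * a - j ≤ k → k ≤ 2 * a → Wt ζ (ff q a k) (y k) := by
    intro j
    induction j with
    | zero =>
      intro _
      refine ⟨v, rfl, fun k h1 h2 => by omega, fun k h1 h2 => ?_⟩
      have hk : k = 2 * a := by omega
      subst hk
      refine Wt_congr hζ hl ?_ (hv.wt _)
      rw [hff2, hee2, zero_sub, dvd_neg]
      exact hd
    | succ j ih =>
      intro hj
      obtain ⟨y, hy1, hy2, hy3⟩ := ih (by omega)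
      obtain ⟨k, hk⟩ : ∃ k, k = 2 * a - (j + 1) := ⟨_, rfl⟩
      have hk1 : 2 * a - j = k + 1 := by omega
      have hw1 : Wt ζ (ff q a k) ((G.u (k + 1) ^ dg q (k + 1)) (y (k + 1))) := by
        have := Wt_upow hζ hTu (hy3 (k + 1) (by omega) (by omega)) (dg q (k + 1))
        rw [ff_succ] at this
        exact this
      have hw2 : G.d (k + 1) ((G.u (k + 1) ^ dg q (k + 1)) (y (k + 1))) = 0 := by
        rw [d_upow]
        rcases eq_or_ne (k + 1) (2 * a) with h | h
        · have : G.d (k + 1) (y (k + 1)) = 0 := by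
            rw [h, hy1, hdv]
          rw [this, map_zero]
        · rw [hy2 (k + 1) (by omega) (by omega), uu hu]
      have hw3 := co_wt hc _ _ _ hw2 hw1 (hne _ (hff k (by omega)))
      obtain ⟨y', hy'1, hy'2⟩ := bd_wt hζ hl hlK hT k _ _ hw3 hw1
      refine ⟨Function.update y k y', ?_, fun i h1 h2 => ?_, fun i h1 h2 => ?_⟩
      · rw [Function.update_of_ne (by omega), hy1]
      · rcases eq_or_ne i k with h | h
        · subst h
          rw [Function.update_self, Function.update_of_ne (by omega), hy'2]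
        · rw [Function.update_of_ne h, Function.update_of_ne (by omega),
            hy2 i (by omega) h2]
      · rcases eq_or_ne i k with h | h
        · subst h
          rw [Function.update_self]
          exact hy'1
        · rw [Function.update_of_ne h]
          exact hy3 i (by omega) h2
  obtain ⟨y, hy1, hy2, hy3⟩ := hrec (2 * a) le_rfl
  have hy2' : ∀ k, k < 2 * a → G.d k (y k) = (G.u (k + 1) ^ dg q (k + 1)) (y (k + 1)) :=
    fun k hk => hy2 k (by omega) hk
  have hy3' : ∀ k, k ≤ 2 * a → Wt ζ (ff q a k) (y k) := fun k hk => hy3 k (by omega) hk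
  have huy : G.u 0 (y 0) = 0 := by
    have h1 : Wt ζ (ff q a 0 - (1 : ℕ)) (G.u 0 (y 0)) := by
      have := Wt_upow hζ hTu (hy3' 0 (by omega)) 1
      rwa [pow_one] at this
    have h2 : G.d 0 (G.u 0 (y 0)) = 0 := by
      rw [G.du]
      rcases Nat.eq_zero_or_pos a with h | h
      · subst h
        have : y 0 = v 0 := hy1
        rw [this]
        have hh' : G.d 0 (v 0) = 0 := hdv
        rw [hh', map_zero]
      · rw [hy2' 0 (by omega)]
        have := uu hu (0 + 1) 0 (y (0 + 1))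
        simpa [dg] using this
    have h3 : ¬ (l : ℤ) ∣ (ff q a 0 - (1 : ℕ)) := by
      have e1 : ff q a 0 - ((1 : ℕ) : ℤ) = -(((q : ℤ) + 1) * (a : ℕ) + 1) := by
        unfold ff
        simp
        ring
      rw [e1, dvd_neg]
      exact nz2 hcop a a le_rfl hd hh
    have h4 := co_wt hc _ _ _ h2 h1 (hne _ h3)
    simpa [TC.bnd] using h4
  set z : ∀ k, G.C k := fun k => if k ≤ 2 * a then (G.u k ^ rr q k) (y k) else 0 with hz
  have zle : ∀ k, k ≤ 2 * a → z k = (G.u k ^ rr q k) (y k) := fun k hk => by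
    rw [hz]
    exact if_pos hk
  have zgt : ∀ k, 2 * a < k → z k = 0 := fun k hk => by
    rw [hz]
    exact if_neg (by omega)
  have z2a : z (2 * a) = v (2 * a) := by
    rw [zle _ le_rfl, hy1]
    have : rr q (2 * a) = 0 := by
      unfold rr
      simp
    rw [this]
    simp
  have hS : Sq G ζ q 0 z := by
    refine ⟨?_, fun k => ?_, fun k => ?_⟩
    · rw [zle 0 (by omega)]
      have e1 : rr q 0 = 0 := by
        unfold rr
        simp
      obtain ⟨q', rfl⟩ : ∃ q', q = q' + 1 := ⟨q - 1, by omega⟩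
      rw [e1, pow_zero, Module.End.one_apply, pow_succ, Module.End.mul_apply, huy, map_zero]
    · rcases lt_trichotomy k (2 * a) with h | h | h
      · rw [zle k h.le, zle (k + 1) (by omega), d_upow, hy2' k h, ← Module.End.mul_apply,
          ← Module.End.mul_apply, ← pow_add, ← pow_add, rr_dg hq]
      · subst h
        rw [z2a, hdv, zgt (2 * a + 1) (by omega), map_zero]
      · rw [zgt k h, zgt (k + 1) (by omega), map_zero, map_zero]
    · rcases le_or_gt k (2 * a) with h | h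
      · rw [zle k h]
        refine Wt_congr hζ hl ?_ (Wt_upow hζ hTu (hy3' k h) (rr q k))
        rw [ee_ff hq a k]
        exact hd
      · rw [zgt k h]
        exact Wt_zero
  refine ⟨_, Sq_sub hv hS, fun j hj => ?_⟩
  rcases eq_or_ne j (2 * a) with h | h
  · subst h
    rw [z2a, sub_self]
  · rw [zgt j (by omega), h0 j (by omega), sub_zero]

/-- existence of a sequence -/
lemma seq_exists (hζ : ζ ≠ 0) (hl : ζ ^ l = 1) (hlK : (l : K) ≠ 0)
    (hT : ∀ n v, (G.T n ^ l) v = v)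
    (hTu : ∀ n v, G.T n (G.u n v) = ζ • G.u n (G.T n v))
    (h1 : ∀ n v, G.u n v = 0 → ∃ w, (G.u n ^ q) w = v)
    (h2 : ∀ n v, (G.u n ^ q) v = 0 → ∃ w, G.u n w = v) (c : G.C 0) (hdc : G.d 0 c = 0)
    (huc : G.u 0 c = 0) (hTc : G.T 0 c = c) : ∃ v, Sq G ζ q c v := by
  have step : ∀ k, ∀ x : {x : G.C k // Wt ζ (ee q k) x ∧ (G.u (k + 1) ^ dg q (k + 1)) (G.d k x) = 0},
      ∃ x' : {x' : G.C (k + 1) // Wt ζ (ee q (k + 1)) x' ∧
        (G.u (k + 1 + 1) ^ dg q (k + 1 + 1)) (G.d (k + 1) x') = 0},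
        G.d k x.1 = (G.u (k + 1) ^ dg q k) x'.1 := by
    intro k x
    obtain ⟨w, hw1, hw2⟩ := ex_wt hζ hl hlK hT hTu h1 h2 (k + 1) k (ee q k) (G.d k x.1) x.2.2
      (Wt_d x.2.1)
    refine ⟨⟨w, ?_, ?_⟩, hw2.symm⟩
    · rw [ee_succ]
      exact hw1
    · have e1 : dg q (k + 1 + 1) = dg q k := by
        have := dg_add q k
        have := dg_add q (k + 1)
        omega
      rw [e1, ← d_upow, hw2, G.dd]
  choose F hF using step
  have start : ∃ x : {x : G.C 0 // Wt ζ (ee q 0) x ∧ (G.u (0 + 1) ^ dg q (0 + 1)) (G.d 0 x) = 0},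
      (G.u 0 ^ q) x.1 = c := by
    obtain ⟨w, hw1, hw2⟩ := ex_wt hζ hl hlK hT hTu h1 h2 0 1 0 c (by simpa [dg] using huc)
      (by unfold Wt; simpa using hTc)
    have e1 : dg q 1 = q := by simp [dg]
    rw [e1] at hw1 hw2
    refine ⟨⟨w, ?_, ?_⟩, hw2⟩
    · rw [ee_zero]
      simpa using hw1
    · have e2 : dg q (0 + 1) = q := by simp [dg]
      rw [e2, ← d_upow (G := G) 0 q w, hw2, hdc]
  obtain ⟨s0, hs0⟩ := start
  let s : ∀ k, {x : G.C k // Wt ζ (ee q k) x ∧ (G.u (k + 1) ^ dg q (k + 1)) (G.d k x) = 0} :=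
    fun k => Nat.rec s0 (fun k x => F k x) k
  exact ⟨fun k => (s k).1, hs0, fun k => hF k (s k), fun k => (s k).2.1⟩

end Pool.Agent.P8H83.ZE.Alg

namespace Pool.Agent.P8H83.ZE

open Alg

/-- package ALG -/
theorem alg_proof : S_ALG := by
  intro K _ G q l m N ζ hq hl1 hcop hlK hpr hTu hT hu h1 h2 hN hc hm hnum c hdc huc hTc
  have hζ : ζ ≠ 0 := hpr.ne_zero (by omega)
  have hl := hpr.pow_eq_one
  obtain ⟨hml, α, hα1, hα2, hα3, hα4⟩ := hnum
  have main : ∀ j, ∃ v, Sq G ζ q c v ∧ ∀ k, N - j ≤ k → v k = 0 := by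
    intro j
    induction j with
    | zero =>
      obtain ⟨v, hv⟩ := seq_exists hζ hl hlK hT hTu h1 h2 c hdc huc hTc
      exact ⟨v, hv, fun k hk => hN k (by omega) _⟩
    | succ j ih =>
      obtain ⟨v, hv, h0⟩ := ih
      rcases Nat.eq_zero_or_pos (N - j) with hz | hz
      · exact ⟨v, hv, fun k _ => h0 k (by omega)⟩
      obtain ⟨n, hn⟩ : ∃ n, n = N - (j + 1) := ⟨_, rfl⟩
      have hn1 : N - j = n + 1 := by omega
      rw [hn1] at h0
      rw [← hn]
      have hdn : G.d n (v n) = 0 := by rw [hv.dv, h0 (n + 1) le_rfl, map_zero]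
      by_cases hb : v n ∈ G.bnd n
      · rcases Nat.eq_zero_or_pos n with h | h
        · subst h
          refine ⟨v, hv, fun k _ => ?_⟩
          rcases Nat.eq_zero_or_pos k with h' | h'
          · subst h'
            simpa [TC.bnd] using hb
          · exact h0 k h'
        · obtain ⟨k, rfl⟩ : ∃ k, n = k + 1 := ⟨n - 1, by omega⟩
          obtain ⟨y, hy1, hy2⟩ := bd_wt hζ hl hlK hT k _ _ hb (hv.wt (k + 1))
          exact caseA hζ hTu hu hv k (fun i hi => h0 i (by omega)) y hy1 hy2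
      · have hnm : n ≤ m := by
          by_contra hcon
          exact hb (hm n (by omega) _ hdn)
        have hdiv : (l : ℤ) ∣ ee q n := by
          by_contra hcon
          refine hb (co_wt hc _ _ _ hdn (hv.wt n) ?_)
          intro h
          rw [hpr.zpow_eq_one_iff_dvd] at h
          exact hcon ((dvd_neg).mp h)
        rcases Nat.even_or_odd n with he | he
        · obtain ⟨a, ha⟩ := he
          have ha' : n = 2 * a := by omega
          subst ha'
          have hee : ee q (2 * a) = ((a : ℤ) + 1) * (q + 1) - 1 := by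
            unfold ee
            rw [if_pos (by simp)]
            simp
          rw [hee] at hdiv
          have hmod : (a + 1) * (q + 1) ≡ 1 [MOD l] := by
            rw [← Int.natCast_modEq_iff]
            refine (Int.modEq_of_dvd ?_).symm
            push_cast
            exact hdiv
          have hmod2 : (a + 1) ≡ α [MOD l] := by
            have h3 : (a + 1) * (q + 1) ≡ α * (q + 1) [MOD l] := hmod.trans hα3.symm
            exact Nat.ModEq.cancel_right_of_coprime (Nat.Coprime.symm hcop) h3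
          have hal : a + 1 ≤ l := by omega
          have haα : a + 1 = α := by
            rcases lt_trichotomy (a + 1) α with h | h | h
            · have h5 := (Nat.modEq_iff_dvd' h.le).mp hmod2
              have := Nat.le_of_dvd (by omega) h5
              omega
            · exact h
            · have h5 := (Nat.modEq_iff_dvd' h.le).mp hmod2.symm
              have := Nat.le_of_dvd (by omega) h5
              omega
          have hh : 2 * (a + 1) ≤ l := by
            rcases hα4 with h | h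
            · omega
            · omega
          exact caseB hq hζ hpr hlK hT hTu hu hc hv a (fun i hi => h0 i (by omega)) hcop hdiv hh
        · exfalso
          obtain ⟨a, ha⟩ := he
          subst ha
          have hee : ee q (2 * a + 1) = ((q : ℤ) + 1) * ((a + 1 : ℕ) : ℤ) := by
            unfold ee
            rw [if_neg (by simp)]
            have : (2 * a + 1) / 2 = a := by omega
            rw [this]
            push_cast
            ring
          rw [hee] at hdiv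
          exact nz1 hcop (a + 1) (by omega) (by omega) hdiv
  obtain ⟨v, hv, h0⟩ := main N
  rw [← hv.c0, h0 0 (by omega), map_zero]

end Pool.Agent.P8H83.ZE
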