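import Pool.Agent.P8H83.ZE.Stm

/-!
# Base change of maps between spaces of functions on finite sets
-/

set_option autoImplicit false

namespace Pool.Agent.P8H83.ZE

open Module Pool.Agent.P8H83.ZL

variable {F K : Type} [Field F] [Field K] [Algebra F K]

/-- functions with values in `F` as functions with values in `K` -/
def iot (K : Type) [Field K] [Algebra F K] {X : Type} (f : X → F) : X → K :=
  fun x => algebraMap F K (f x)

theorem iot_add {X : Type} (f g : X → F) : iot K (f + g) = iot K f + iot K g := by
  funext x; exact map_add _ _ _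

theorem iot_sub {X : Type} (f g : X → F) : iot K (f - g) = iot K f - iot K g := by
  funext x; exact map_sub _ _ _

theorem iot_zero {X : Type} : iot K (0 : X → F) = 0 := by
  funext x; exact map_zero _

theorem iot_smul {X : Type} (c : F) (f : X → F) :
    iot K (c • f) = algebraMap F K c • iot K f := by
  funext x
  exact map_mul _ _ _

open Classical in
/-- base change of a linear map -/
noncomputable def bc (K : Type) [Field K] [Algebra F K] {X Y : Type} [Finite X]
    (D : (X → F) →ₗ[F] (Y → F)) : (X → K) →ₗ[K] (Y → K) :=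
  letI := Fintype.ofFinite X
  { toFun := fun f y => ∑ x, algebraMap F K (D (Pi.single x 1) y) * f x
    map_add' := fun f g => by
      funext y
      show ∑ x, algebraMap F K (D (Pi.single x 1) y) * (f x + g x) =
        (∑ x, algebraMap F K (D (Pi.single x 1) y) * f x) +
          ∑ x, algebraMap F K (D (Pi.single x 1) y) * g x
      rw [← Finset.sum_add_distrib]
      exact Finset.sum_congr rfl fun x _ => mul_add _ _ _
    map_smul' := fun c f => by
      funext y
      show ∑ x, algebraMap F K (D (Pi.single x 1) y) * (c * f x) =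
        c * ∑ x, algebraMap F K (D (Pi.single x 1) y) * f x
      rw [Finset.mul_sum]
      exact Finset.sum_congr rfl fun x _ => by ring }

theorem bc_iot {X Y : Type} [Finite X] (D : (X → F) →ₗ[F] (Y → F)) (f : X → F) :
    bc K D (iot K f) = iot K (D f) := by
  classical
  let _ := Fintype.ofFinite X
  funext y
  show ∑ x, algebraMap F K (D (Pi.single x 1) y) * algebraMap F K (f x) =
    algebraMap F K (D f y)
  have h : f = ∑ x, f x • (Pi.single x 1 : X → F) := by
    funext z
    rw [Finset.sum_apply, Finset.sum_eq_single z]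
    · simp
    · intro b _ hb
      rw [Pi.smul_apply, Pi.single_apply, if_neg (Ne.symm hb), smul_zero]
    · intro hz
      exact absurd (Finset.mem_univ z) hz
  conv_rhs => rw [h, map_sum, Finset.sum_apply, map_sum]
  refine Finset.sum_congr rfl fun x _ => ?_
  rw [map_smul, Pi.smul_apply, smul_eq_mul, map_mul, mul_comm]

/-- a function on a finite set is a finite combination of functions with values in `F` -/
theorem exists_decomp {J : Type} (B : Basis J F K) {X : Type} [Finite X] (f : X → K) :
    ∃ S : Finset J, f = ∑ j ∈ S, B j • iot K (fun x => B.repr (f x) j) := by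
  classical
  let _ := Fintype.ofFinite X
  refine ⟨Finset.univ.biUnion (fun x => (B.repr (f x)).support), ?_⟩
  funext x
  rw [Finset.sum_apply]
  have h := B.linearCombination_repr (f x)
  rw [Finsupp.linearCombination_apply, Finsupp.sum] at h
  conv_lhs => rw [← h]
  have h2 : (B.repr (f x)).support ⊆ Finset.univ.biUnion (fun x => (B.repr (f x)).support) :=
    Finset.subset_biUnion_of_mem (fun x => (B.repr (f x)).support) (Finset.mem_univ x)
  rw [Finset.sum_subset h2]
  · refine Finset.sum_congr rfl fun j _ => ?_
    show (B.repr (f x)) j • B j = B j * algebraMap F K ((B.repr (f x)) j)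
    rw [Algebra.smul_def, mul_comm]
  · intro j _ hj
    rw [Finsupp.notMem_support_iff.1 hj, zero_smul]

theorem lin_ext {X Y : Type} [Finite X] (A B : (X → K) →ₗ[K] (Y → K))
    (h : ∀ f : X → F, A (iot K f) = B (iot K f)) (f : X → K) : A f = B f := by
  obtain ⟨S, hS⟩ := exists_decomp (Basis.ofVectorSpace F K) f
  rw [hS, map_sum, map_sum]
  refine Finset.sum_congr rfl fun j _ => ?_
  rw [map_smul, map_smul, h]

/-- if `∑ B j • iot (f j) = 0` then all `f j` are zero -/
theorem decomp_zero {J : Type} (B : Basis J F K) {Y : Type} (S : Finset J)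
    (f : J → Y → F) (h : ∑ j ∈ S, B j • iot K (f j) = 0) : ∀ j ∈ S, f j = 0 := by
  intro j hj
  funext y
  have h1 := congrFun h y
  rw [Finset.sum_apply] at h1
  have h2 : ∑ j ∈ S, (f j y) • B j = 0 := by
    refine Eq.trans (Finset.sum_congr rfl fun j _ => ?_) h1
    show (f j y) • B j = B j * algebraMap F K (f j y)
    rw [Algebra.smul_def, mul_comm]
  exact linearIndependent_iff'.1 B.linearIndependent S _ h2 j hj

/-- The principle of base change for statements on cocycles which go to coboundaries. -/
theorem bc_exact {X Y W : Type} [Finite X] [Finite W] (D : (X → F) →ₗ[F] (Y → F))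
    (D' : (W → F) →ₗ[F] (X → F)) (A : (X → F) →ₗ[F] (X → F)) (AK : (X → K) →ₗ[K] (X → K))
    (hA : ∀ f, AK (iot K f) = iot K (A f))
    (h : ∀ f, D f = 0 → ∃ g, D' g = A f) (f : X → K) (hf : bc K D f = 0) :
    ∃ g, bc K D' g = AK f := by
  classical
  let B := Basis.ofVectorSpace F K
  obtain ⟨S, hS⟩ := exists_decomp B f
  have h1 : ∀ j ∈ S, D (fun x => B.repr (f x) j) = 0 := by
    apply decomp_zero B S (fun j => D (fun x => B.repr (f x) j))
    rw [hS, map_sum] at hf
    rw [← hf]
    refine Finset.sum_congr rfl fun j _ => ?_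
    rw [map_smul, bc_iot]
  choose! g hg using fun j (hj : j ∈ S) => h _ (h1 j hj)
  refine ⟨∑ j ∈ S, B j • iot K (g j), ?_⟩
  conv_rhs => rw [hS]
  rw [map_sum, map_sum]
  refine Finset.sum_congr rfl fun j hj => ?_
  rw [map_smul, map_smul, bc_iot, hg j hj, hA]

/-- the same in degree zero -/
theorem bc_zero {X Y : Type} [Finite X] (D : (X → F) →ₗ[F] (Y → F))
    (A : (X → F) →ₗ[F] (X → F)) (AK : (X → K) →ₗ[K] (X → K))
    (hA : ∀ f, AK (iot K f) = iot K (A f))
    (h : ∀ f, D f = 0 → A f = 0) (f : X → K) (hf : bc K D f = 0) : AK f = 0 := by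
  classical
  let B := Basis.ofVectorSpace F K
  obtain ⟨S, hS⟩ := exists_decomp B f
  have h1 : ∀ j ∈ S, D (fun x => B.repr (f x) j) = 0 := by
    apply decomp_zero B S (fun j => D (fun x => B.repr (f x) j))
    rw [hS, map_sum] at hf
    rw [← hf]
    refine Finset.sum_congr rfl fun j _ => ?_
    rw [map_smul, bc_iot]
  rw [hS, map_sum]
  refine Finset.sum_eq_zero fun j hj => ?_
  rw [map_smul, hA, h _ (h1 j hj), iot_zero, smul_zero]

theorem permR_iot {G X : Type} [Group G] (φ : G →* Equiv.Perm X) (g : G) (f : X → F) :
    permR K φ g (iot K f) = iot K (permR F φ g f) := rfl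

end Pool.Agent.P8H83.ZE
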