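import Pool.Agent.P8H83.ZE.Grp
import Pool.Agent.P8H83.ZE.BC
import Pool.Agent.P8H83.ZL.TOP
import Mathlib.RingTheory.RootsOfUnity.AlgebraicallyClosed

/-!
# The vectors have a fixed point
-/

set_option autoImplicit false

namespace Pool.Agent.P8H83.ZE

open Module Polynomial Pool.Agent.P8H83.ZL Pool.Agent.H185.ZM Pool.Agent.Helper381
open scoped Manifold ContDiff

/-- The group `(ℤ/p)^l_0` has a fixed point. -/
def S_FIX : Prop := ∀ (p l : ℕ), p.Prime → l.Prime → p ≠ l → Irreducible (cyclotomic l (ZMod p)) →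
  ∀ (E : Type) [NormedAddCommGroup E] [NormedSpace ℝ E] [FiniteDimensional ℝ E]
  (M : Type) [TopologicalSpace M] [ChartedSpace E M] [IsManifold 𝓘(ℝ, E) ∞ M]
  [CompactSpace M] [T2Space M] [ConnectedSpace M],
  (∀ n, finrank (ZMod p) (SingularCohomology (ZMod p) M n) < l - 1) →
  (∀ n, finrank ℝ E < n → finrank (ZMod p) (SingularCohomology (ZMod p) M n) = 0) →
  Num p l (finrank ℝ E) → ∀ (a : CW l p → M → M), SmoothAction E a →
  ∃ y : M, ∀ g : CW l p, g.1 ∈ WG.D l p → a g y = y

/-- an operator of order `l` acts trivially on a subquotient of small dimension over `𝔽_p` -/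
theorem small_sub (hSML : S_SML) {p l : ℕ} [Fact p.Prime] (hp : p.Prime) (hl : l.Prime)
    (hpl : p ≠ l) (hirr : Irreducible (cyclotomic l (ZMod p))) {V : Type} [AddCommGroup V]
    [Module (ZMod p) V] [FiniteDimensional (ZMod p) V] (T : V →ₗ[ZMod p] V)
    (hT : ∀ v, (T ^ l) v = v) (B Z : Submodule (ZMod p) V) (hBZ : B ≤ Z)
    (hB : ∀ v ∈ B, T v ∈ B) (hZ : ∀ v ∈ Z, T v ∈ Z)
    (hd : finrank (ZMod p) Z - finrank (ZMod p) B < l - 1) (v : V) (hv : v ∈ Z) :
    T v - v ∈ B := by
  let B' : Submodule (ZMod p) Z := B.submoduleOf Z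
  let T1 : Z →ₗ[ZMod p] Z := T.restrict hZ
  have hB' : B' ≤ B'.comap T1 := by
    intro x hx
    show T (x : V) ∈ B
    exact hB _ hx
  let T2 : (Z ⧸ B') →ₗ[ZMod p] (Z ⧸ B') := B'.mapQ B' T1 hB'
  have h1 : ∀ (n : ℕ) (x : Z), (T2 ^ n) (B'.mkQ x) = B'.mkQ ((T1 ^ n) x) := by
    intro n
    induction n with
    | zero => intro x; rfl
    | succ n ih =>
      intro x
      rw [pow_succ, pow_succ, Module.End.mul_apply, Module.End.mul_apply]
      rw [← ih]
      rfl
  have h2 : ∀ (n : ℕ) (x : Z), (((T1 ^ n) x : Z) : V) = (T ^ n) (x : V) := by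
    intro n
    induction n with
    | zero => intro x; rfl
    | succ n ih =>
      intro x
      rw [pow_succ, pow_succ, Module.End.mul_apply, Module.End.mul_apply, ih]
      rfl
  have h3 : ∀ q : Z ⧸ B', (T2 ^ l) q = q := by
    intro q
    obtain ⟨x, rfl⟩ := B'.mkQ_surjective q
    rw [h1]
    congr 1
    apply Subtype.ext
    rw [h2, hT]
  have h4 : finrank (ZMod p) (Z ⧸ B') < l - 1 := by
    have h5 := Submodule.finrank_quotient_add_finrank B'
    have h6 : finrank (ZMod p) B' = finrank (ZMod p) B :=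
      LinearEquiv.finrank_eq (Submodule.submoduleOfEquivOfLe hBZ)
    rw [h6] at h5
    have h7 : 1 ≤ l - 1 := by omega
    have h8 : finrank (ZMod p) (Z ⧸ B') = finrank (ZMod p) Z - finrank (ZMod p) B := by omega
    rw [h8]
    exact hd
  have h5 := hSML p l hp hl hpl hirr (Z ⧸ B') T2 h3 h4 (B'.mkQ ⟨v, hv⟩)
  have h6 : B'.mkQ (T1 ⟨v, hv⟩) = B'.mkQ ⟨v, hv⟩ := h5
  rw [← sub_eq_zero, ← map_sub, Submodule.mkQ_apply, Submodule.Quotient.mk_eq_zero] at h6
  exact h6

/-- intertwining with the shifted operator -/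
theorem sop_map {K : Type} [Field K] {G X Y : Type} [Group G] (φ : G →* Equiv.Perm X)
    (ψ : G →* Equiv.Perm Y) {ι : Type} [Fintype ι] (g : ι → G) (a : ι → K)
    (D : (X → K) →ₗ[K] (Y → K)) (hD : ∀ h f, D (permR K φ h f) = permR K ψ h (D f))
    (f : X → K) : D (sop φ g a f) = sop ψ g a (D f) := by
  unfold sop
  rw [LinearMap.sum_apply, LinearMap.sum_apply, map_sum]
  refine Finset.sum_congr rfl fun i _ => ?_
  rw [LinearMap.smul_apply, LinearMap.smul_apply, map_smul, LinearMap.sub_apply,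
    LinearMap.sub_apply, map_sub, hD]
  rfl

/-- the rotation multiplies the shifted operator by `ζ` -/
theorem rot_sop {l p : ℕ} (hl : Odd l) {K : Type} [Field K] {ζ : K} (hζ : IsPrimitiveRoot ζ l)
    {X : Type} (φ : CW l p →* Equiv.Perm X) (f : X → K) :
    permR K φ (rot l p hl) (sop (φ.comp (inc l p)) (gen l p)
      (fun i : Fin l => (ζ⁻¹) ^ (i : ℕ)) f) =
    ζ • sop (φ.comp (inc l p)) (gen l p) (fun i : Fin l => (ζ⁻¹) ^ (i : ℕ))
      (permR K φ (rot l p hl) f) := by
  have hl0 : l ≠ 0 := by rintro rfl; simp at hl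
  have hζ0 : ζ ≠ 0 := hζ.ne_zero hl0
  set T := permR K φ (rot l p hl) with hT
  have h1 : ∀ i, T * permR K (φ.comp (inc l p)) (gen l p i) =
      permR K (φ.comp (inc l p)) (gen l p (finRotate l i)) * T := by
    intro i
    have e1 : ∀ g, permR K (φ.comp (inc l p)) g = permR K φ (inc l p g) := fun g => rfl
    rw [e1, e1, hT, ← map_mul, ← map_mul, conj_gen]
  have h2 : ∀ i : Fin l, (ζ⁻¹) ^ (i : ℕ) = ζ * (ζ⁻¹) ^ ((finRotate l i : Fin l) : ℕ) := by
    intro i
    obtain ⟨n, rfl⟩ : ∃ n, l = n + 1 := ⟨l - 1, by omega⟩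
    rw [coe_finRotate]
    split_ifs with h
    · rw [h, pow_zero, mul_one, Fin.val_last]
      have h3 : (ζ⁻¹) ^ (n + 1) = 1 := by rw [inv_pow, hζ.pow_eq_one, inv_one]
      rw [pow_succ] at h3
      have h4 : (ζ⁻¹) ^ n = (ζ⁻¹)⁻¹ := eq_inv_of_mul_eq_one_left h3
      rw [h4, inv_inv]
    · rw [pow_succ', ← mul_assoc, mul_inv_cancel₀ hζ0, one_mul]
  have h3 : ∀ i, T ((permR K (φ.comp (inc l p)) (gen l p i) - 1) f) =
      (permR K (φ.comp (inc l p)) (gen l p (finRotate l i)) - 1) (T f) := by
    intro i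
    rw [LinearMap.sub_apply, LinearMap.sub_apply, map_sub]
    congr 1
    exact LinearMap.congr_fun (h1 i) f
  unfold sop
  rw [LinearMap.sum_apply, LinearMap.sum_apply, map_sum, Finset.smul_sum]
  rw [← Equiv.sum_comp (finRotate l) (fun i => ζ • ((ζ⁻¹ ^ (i : ℕ)) •
    (permR K (φ.comp (inc l p)) (gen l p i) - 1)) (T f))]
  refine Finset.sum_congr rfl fun i _ => ?_
  rw [LinearMap.smul_apply, map_smul, h3, LinearMap.smul_apply, smul_smul, ← h2]

theorem permR_pow {K : Type} [Field K] {G X : Type} [Group G] (φ : G →* Equiv.Perm X) (g : G)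
    (n : ℕ) : (permR K φ g) ^ n = permR K φ (g ^ n) := (map_pow (permR K φ) g n).symm

theorem permR_one {K : Type} [Field K] {G X : Type} [Group G] (φ : G →* Equiv.Perm X) :
    permR K φ 1 = 1 := map_one _

theorem permR_const {K : Type} [Field K] {G X : Type} [Group G] (φ : G →* Equiv.Perm X) (g : G) :
    permR K φ g (fun _ => 1) = fun _ => 1 := rfl

set_option maxHeartbeats 1000000 in
theorem fix_proof (hALG : S_ALG) (hFRE : S_FRE) (hCHI : S_CHI) (hSML : S_SML) : S_FIX := by
  intro p l hp hl hpl hirr E _ _ _ M _ _ _ _ _ _ hb hvan hnum a ha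
  have : Fact p.Prime := ⟨hp⟩
  by_contra hcon
  push Not at hcon
  have hfinW := finite_WG' l p hp.ne_zero
  have hfinP : Finite (CW l p) := Subtype.finite
  obtain ⟨X, φ, d, N, hXf, hXe, hX0, hdd, hd1, hdφ, hfix, hfr⟩ :=
    top_proof E M (CW l p) a ha (ZMod p)
  set m := finrank ℝ E with hm
  have hle : ∀ n, cobound (ZMod p) (fun n => X n → ZMod p) d n ≤ LinearMap.ker (d n) := by
    intro n
    cases n with
    | zero => exact bot_le
    | succ n =>
      rintro _ ⟨f, rfl⟩
      exact hdd n f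
  have hfd : ∀ n, FiniteDimensional (ZMod p) (X n → ZMod p) := by
    intro n
    have := hXf n
    infer_instance
  -- `l` is odd
  have hlodd : Odd l := by
    refine hl.odd_of_ne_two ?_
    rintro rfl
    have h1 := hb 0
    have h2 := hfr 0
    have h3 : finrank (ZMod p) (LinearMap.ker (d 0)) = 0 := by
      have h4 : finrank (ZMod p) (cobound (ZMod p) (fun n => X n → ZMod p) d 0) = 0 :=
        finrank_bot (ZMod p) (X 0 → ZMod p)
      omega
    rw [Submodule.finrank_eq_zero] at h3
    have h5 : (fun _ => 1 : X 0 → ZMod p) ∈ LinearMap.ker (d 0) := hd1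
    rw [h3, Submodule.mem_bot] at h5
    obtain ⟨x⟩ := hX0
    exact one_ne_zero (congrFun h5 x)
  -- the field
  let K := AlgebraicClosure (ZMod p)
  have hl0 : (l : K) ≠ 0 := by
    rw [Ne, CharP.cast_eq_zero_iff K p l]
    intro h
    exact hpl ((Nat.prime_dvd_prime_iff_eq hp hl).1 h)
  have : NeZero l := ⟨hl.ne_zero⟩
  have : NeZero (l : K) := ⟨hl0⟩
  obtain ⟨ζ, hζ⟩ := HasEnoughRootsOfUnity.exists_primitiveRoot K l
  let a' : Fin l → K := fun i => (ζ⁻¹) ^ (i : ℕ)
  let ψ : ∀ n, WG.D l p →* Equiv.Perm (X n) := fun n => (φ n).comp (inc l p)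
  let τ : CW l p := rot l p hlodd
  have hp1 : p - 1 + 1 = p := Nat.sub_add_cancel hp.one_le
  -- the complex
  have hdd' : ∀ n (v : X n → K), bc K (d (n + 1)) (bc K (d n) v) = 0 := by
    intro n v
    exact lin_ext (F := ZMod p) ((bc K (d (n + 1))).comp (bc K (d n))) 0 (fun f => by
      rw [LinearMap.comp_apply, bc_iot, bc_iot, hdd, iot_zero]; rfl) v
  have hdφ' : ∀ n g (v : X n → K), bc K (d n) (permR K (φ n) g v) =
      permR K (φ (n + 1)) g (bc K (d n) v) := by
    intro n g v
    exact lin_ext (F := ZMod p) ((bc K (d n)).comp (permR K (φ n) g))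
      ((permR K (φ (n + 1)) g).comp (bc K (d n))) (fun f => by
        rw [LinearMap.comp_apply, LinearMap.comp_apply, permR_iot, bc_iot, bc_iot, permR_iot,
          hdφ]) v
  let G : TC K :=
    { C := fun n => X n → K
      d := fun n => bc K (d n)
      u := fun n => sop (ψ n) (gen l p) a'
      T := fun n => permR K (φ n) τ
      dd := hdd'
      du := fun n v => sop_map (ψ n) (ψ (n + 1)) (gen l p) a' (bc K (d n))
        (fun g f => hdφ' n (inc l p g) f) v
      dT := fun n v => hdφ' n τ v }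
  have hbnd : ∀ n, cobound (ZMod p) (fun n => X n → ZMod p) d n ≤ LinearMap.ker (d n) := hle
  -- freeness
  have hfree := fun n => hFRE p hp K (WG.D l p) (X n) (ψ n) (Fin l) (gen l p) a' D_comm
    (fun i => D_pow (gen l p i)) (fun x => by
      let H : Subgroup (WG.D l p) :=
        { carrier := {g | ψ n g x = x}
          mul_mem' := by
            intro g h hg hh
            show ψ n (g * h) x = x
            rw [map_mul, Equiv.Perm.mul_apply, show ψ n h x = x from hh]
            exact hg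
          one_mem' := by
            show ψ n 1 x = x
            rw [map_one]; rfl
          inv_mem' := by
            intro g hg
            show ψ n g⁻¹ x = x
            rw [map_inv, Equiv.Perm.inv_eq_iff_eq]
            exact (show ψ n g x = x from hg).symm }
      have hH : H ≠ ⊤ := by
        intro hH
        obtain ⟨y, hy⟩ := hfix n x
        obtain ⟨g, hgD, hg⟩ := hcon y
        apply hg
        apply hy
        have h1 : (⟨g.1, hgD⟩ : WG.D l p) ∈ H := by rw [hH]; exact Subgroup.mem_top _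
        exact h1
      obtain ⟨χ, h1, h2⟩ := hCHI p l hp hl hpl hirr K ζ hζ H hH
      exact ⟨χ, fun h hh => h1 h hh, h2⟩)
  -- the cohomology
  have hcoh : ∀ n (f : X n → ZMod p), d n f = 0 →
      permR (ZMod p) (φ n) τ f - f ∈ cobound (ZMod p) (fun n => X n → ZMod p) d n := by
    intro n f hf
    refine small_sub hSML hp hl hpl hirr (permR (ZMod p) (φ n) τ) (fun v => by
      rw [permR_pow, rot_pow, permR_one]; rfl)
      (cobound (ZMod p) (fun n => X n → ZMod p) d n) (LinearMap.ker (d n)) (hle n) ?_ ?_ ?_ f hf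
    · intro v hv
      cases n with
      | zero =>
        have h5 : v = 0 := hv
        rw [h5, map_zero]
        exact Submodule.zero_mem _
      | succ n =>
        obtain ⟨g, rfl⟩ := hv
        exact ⟨permR (ZMod p) (φ n) τ g, hdφ n τ g⟩
    · intro v hv
      rw [LinearMap.mem_ker] at hv ⊢
      rw [hdφ, hv, map_zero]
    · have h1 := hfr n
      have h2 := hb n
      rw [h1]
      omega
  have hvan' : ∀ n, m < n → ∀ f : X n → ZMod p, d n f = 0 →
      f ∈ cobound (ZMod p) (fun n => X n → ZMod p) d n := by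
    intro n hn f hf
    have h1 := hfr n
    rw [hvan n hn, add_zero] at h1
    have h2 := Submodule.eq_of_le_of_finrank_eq (hle n) h1.symm
    rw [h2]
    exact hf
  have hTK : ∀ n (f : X n → ZMod p), (permR K (φ n) τ - 1) (iot K f) =
      iot K ((permR (ZMod p) (φ n) τ - 1) f) := by
    intro n f
    rw [LinearMap.sub_apply, LinearMap.sub_apply, permR_iot, iot_sub]
    rfl
  have hmain := hALG K G (p - 1) l m N ζ (by have := hp.two_le; omega) hl.one_le
    (by rw [hp1]; exact (Nat.coprime_primes hp hl).2 hpl) hl0 hζ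
    (fun n v => rot_sop hlodd hζ (φ n) v)
    (fun n v => by
      show ((permR K (φ n) τ) ^ l) v = v
      rw [permR_pow, rot_pow, permR_one]; rfl)
    (fun n v => by
      rw [hp1]
      exact (hfree n).1 v)
    (fun n v hv => (hfree n).2.1 v hv)
    (fun n v hv => (hfree n).2.2 v hv)
    (fun n hn v => by
      have := hXe n hn
      funext x
      exact this.elim x)
    (fun n v hv => by
      cases n with
      | zero =>
        show permR K (φ 0) τ v - v ∈ (⊥ : Submodule K (X 0 → K))
        rw [Submodule.mem_bot]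
        exact bc_zero (d 0) (permR (ZMod p) (φ 0) τ - 1) (permR K (φ 0) τ - 1) (hTK 0)
          (fun f hf => hcoh 0 f hf) v hv
      | succ n =>
        exact bc_exact (d (n + 1)) (d n) (permR (ZMod p) (φ (n + 1)) τ - 1)
          (permR K (φ (n + 1)) τ - 1) (hTK (n + 1)) (fun f hf => hcoh (n + 1) f hf) v hv)
    (fun n hn v hv => by
      cases n with
      | zero => exact absurd hn (by omega)
      | succ n =>
        exact bc_exact (d (n + 1)) (d n) 1 1 (fun f => rfl)
          (fun f hf => hvan' (n + 1) hn f hf) v hv)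
    (by rw [hp1]; exact hnum)
    (fun _ => 1)
    (by
      show bc K (d 0) (fun _ => 1) = 0
      have h1 : (fun _ => 1 : X 0 → K) = iot K (fun _ => 1 : X 0 → ZMod p) := by
        funext x
        exact (map_one _).symm
      rw [h1, bc_iot, hd1, iot_zero])
    (by
      show sop (ψ 0) (gen l p) a' (fun _ => 1) = 0
      unfold sop
      rw [LinearMap.sum_apply]
      refine Finset.sum_eq_zero fun i _ => ?_
      rw [LinearMap.smul_apply, LinearMap.sub_apply, permR_const]
      show a' i • ((fun _ => 1 : X 0 → K) - fun _ => 1) = 0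
      rw [sub_self, smul_zero])
    (permR_const (φ 0) τ)
  obtain ⟨x⟩ := hX0
  exact one_ne_zero (congrFun hmain x)

end Pool.Agent.P8H83.ZE
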