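import Pool.Agent.P8H83.ZE.Stm
import Pool.Agent.P8H83.ZL.Mono

/-!
# The group `(ℤ/p)^l_0 ⋊ ℤ/l`
-/

set_option autoImplicit false

namespace Pool.Agent.P8H83.ZE

open Module Pool.Agent.P8H83.ZL

/-- The subgroup `(ℤ/p)^l_0 ⋊ ℤ/l` of the group `(ℤ/p)^l_0 ⋊ A_l`. -/
def CW (l p : ℕ) : Subgroup (WG l p) where
  carrier := {g | g.σ ∈ Subgroup.zpowers (finRotate l)}
  mul_mem' := by
    intro g h hg hh
    show g.σ * h.σ ∈ Subgroup.zpowers (finRotate l)
    exact (Subgroup.zpowers (finRotate l)).mul_mem hg hh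
  one_mem' := (Subgroup.zpowers (finRotate l)).one_mem
  inv_mem' := by
    intro g hg
    show g.σ⁻¹ ∈ Subgroup.zpowers (finRotate l)
    exact (Subgroup.zpowers (finRotate l)).inv_mem hg

theorem mem_CW {l p : ℕ} {g : WG l p} : g ∈ CW l p ↔ g.σ ∈ Subgroup.zpowers (finRotate l) :=
  Iff.rfl

theorem sign_rot {l : ℕ} (hl : Odd l) : Equiv.Perm.sign (finRotate l) = 1 := by
  rw [sign_finRotate]
  obtain ⟨k, rfl⟩ := hl
  rw [Nat.add_sub_cancel, pow_mul]
  simp

/-- The rotation. -/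
def rot (l p : ℕ) (hl : Odd l) : CW l p :=
  ⟨⟨0, finRotate l, by simp, sign_rot hl⟩, Subgroup.mem_zpowers _⟩

theorem rot_v {l p : ℕ} (hl : Odd l) : (rot l p hl).1.v = 0 := rfl

theorem rot_σ {l p : ℕ} (hl : Odd l) : (rot l p hl).1.σ = finRotate l := rfl

theorem finRotate_pow (l : ℕ) : (finRotate l) ^ l = 1 := by
  match l with
  | 0 => rfl
  | 1 => exact Subsingleton.elim _ _
  | l + 2 =>
    have h : orderOf (finRotate (l + 2)) = l + 2 := by
      rw [isCycle_finRotate.orderOf, support_finRotate, Finset.card_univ, Fintype.card_fin]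
    have h2 := pow_orderOf_eq_one (finRotate (l + 2))
    rw [h] at h2
    exact h2

theorem rot_pow_v {l p : ℕ} (hl : Odd l) (n : ℕ) :
    ((rot l p hl) ^ n).1.v = 0 ∧ ((rot l p hl) ^ n).1.σ = (finRotate l) ^ n := by
  induction n with
  | zero => exact ⟨rfl, rfl⟩
  | succ n ih =>
    constructor
    · funext i
      show (((rot l p hl) ^ n * rot l p hl).1).v i = 0
      rw [Subgroup.coe_mul, WG.mul_v, ih.1, rot_v]
      simp
    · show (((rot l p hl) ^ n * rot l p hl).1).σ = _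
      rw [Subgroup.coe_mul, WG.mul_σ, ih.2, rot_σ, pow_succ]

theorem rot_pow {l p : ℕ} (hl : Odd l) : (rot l p hl) ^ l = 1 := by
  apply Subtype.ext
  apply WG.ext'
  · rw [(rot_pow_v hl l).1]; rfl
  · rw [(rot_pow_v hl l).2, finRotate_pow]; rfl

/-- The inclusion of the vectors. -/
def inc (l p : ℕ) : WG.D l p →* CW l p where
  toFun g := ⟨g.1, by
    rw [mem_CW, show g.1.σ = 1 from g.2]
    exact Subgroup.one_mem _⟩
  map_one' := rfl
  map_mul' _ _ := rfl

theorem inc_coe {l p : ℕ} (g : WG.D l p) : (inc l p g).1 = g.1 := rfl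

theorem D_comm {l p : ℕ} (g h : WG.D l p) : g * h = h * g := by
  apply Subtype.ext
  apply WG.ext'
  · funext i
    rw [Subgroup.coe_mul, Subgroup.coe_mul, WG.mul_v, WG.mul_v, show g.1.σ = 1 from g.2,
      show h.1.σ = 1 from h.2, add_comm]
    rfl
  · rw [Subgroup.coe_mul, Subgroup.coe_mul, WG.mul_σ, WG.mul_σ, show g.1.σ = 1 from g.2,
      show h.1.σ = 1 from h.2]

theorem D_pow_coe {l p : ℕ} (g : WG.D l p) (n : ℕ) :
    (g ^ n).1.v = n • g.1.v ∧ (g ^ n).1.σ = 1 := by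
  induction n with
  | zero => exact ⟨by rw [pow_zero, zero_smul]; rfl, rfl⟩
  | succ n ih =>
    refine ⟨?_, (g ^ (n + 1)).2⟩
    funext i
    rw [pow_succ, Subgroup.coe_mul, WG.mul_v, ih.1, ih.2, inv_one]
    show (n • g.1.v) i + g.1.v i = ((n + 1) • g.1.v) i
    rw [add_smul, one_smul]
    rfl

theorem D_pow {l p : ℕ} (g : WG.D l p) : g ^ p = 1 := by
  have h := D_pow_coe g p
  apply Subtype.ext
  apply WG.ext'
  · rw [h.1]
    funext i
    show p • g.1.v i = 0
    rw [nsmul_eq_mul, CharP.cast_eq_zero, zero_mul]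
  · exact h.2

/-- conjugation by the rotation -/
theorem conj_v {l p : ℕ} (hl : Odd l) (g : WG.D l p) :
    (rot l p hl * inc l p g * (rot l p hl)⁻¹).1.v = (fun i => g.1.v ((finRotate l)⁻¹ i)) ∧
    (rot l p hl * inc l p g * (rot l p hl)⁻¹).1.σ = 1 := by
  constructor
  · funext i
    rw [Subgroup.coe_mul, Subgroup.coe_mul, Subgroup.coe_inv, WG.mul_v, WG.mul_v, WG.inv_v,
      rot_v, rot_σ, inc_coe]
    simp
  · rw [Subgroup.coe_mul, Subgroup.coe_mul, Subgroup.coe_inv, WG.mul_σ, WG.mul_σ, WG.inv_σ,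
      inc_coe, show g.1.σ = 1 from g.2, mul_one, mul_inv_cancel]

theorem gen_v (l p : ℕ) (i j : Fin l) : (gen l p i).1.v j =
    (Pi.single i 1 : Fin l → ZMod p) j - (Pi.single (finRotate l i) 1 : Fin l → ZMod p) j := rfl

theorem single_inv {l p : ℕ} (σ : Equiv.Perm (Fin l)) (i j : Fin l) :
    (Pi.single i 1 : Fin l → ZMod p) (σ⁻¹ j) = (Pi.single (σ i) 1 : Fin l → ZMod p) j := by
  by_cases h : σ i = j
  · rw [← h]; simp
  · rw [Pi.single_eq_of_ne (Ne.symm h), Pi.single_eq_of_ne]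
    intro h2
    apply h
    rw [← h2]
    simp

theorem conj_gen {l p : ℕ} (hl : Odd l) (i : Fin l) :
    rot l p hl * inc l p (gen l p i) = inc l p (gen l p (finRotate l i)) * rot l p hl := by
  rw [← mul_inv_eq_iff_eq_mul]
  apply Subtype.ext
  apply WG.ext'
  · rw [(conj_v hl (gen l p i)).1]
    funext j
    show (gen l p i).1.v ((finRotate l)⁻¹ j) = (gen l p (finRotate l i)).1.v j
    rw [gen_v, gen_v, single_inv, single_inv]
  · rw [(conj_v hl (gen l p i)).2]
    rfl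

theorem finite_WG' (l p : ℕ) (hp : p ≠ 0) : Finite (WG l p) := by
  have : NeZero p := ⟨hp⟩
  apply Finite.of_injective (fun g : WG l p => (g.v, g.σ))
  intro g h hgh
  exact WG.ext' (congrArg Prod.fst hgh) (congrArg Prod.snd hgh)

end Pool.Agent.P8H83.ZE
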