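import Pool.Agent.P8H83.ZE.Triv
import Pool.Agent.P8H83.ZL.Mat

/-!
# Groups which contain `(ℤ/p)^l_0 ⋊ ℤ/l`
-/

set_option autoImplicit false

namespace Pool.Agent.P8H83.ZE

open Module Polynomial Pool.Agent.P8H83.ZL Pool.Agent.H185.ZM Pool.Agent.Helper381
open scoped Manifold ContDiff

/-- The conditions on `p`, `l` and `M`: `p ≠ l` are primes, `l > 2`, `Φ_l` is irreducible modulo
`p`, `b_i(M; 𝔽_p) < l - 1` for all `i` and `m` is in the range. -/
structure Good (E : Type) [NormedAddCommGroup E] [NormedSpace ℝ E] (M : Type) [TopologicalSpace M]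
    (p l : ℕ) [Fact p.Prime] : Prop where
  hl : l.Prime
  hl2 : 2 < l
  hpl : p ≠ l
  irr : Irreducible (cyclotomic l (ZMod p))
  bet : ∀ n, finrank (ZMod p) (SingularCohomology (ZMod p) M n) < l - 1
  ran : InR p l (finrank ℝ E)

/-- The group `(ℤ/p)^l_0 ⋊ ℤ/l` of the pairs of a vector with coordinate sum zero and a rotation of
the coordinates. -/
def VR (l p : ℕ) : Type := CW l p

instance (l p : ℕ) : Group (VR l p) := inferInstanceAs (Group (CW l p))

/-- The element of `(ℤ/p)^l_0 ⋊ ℤ/l` given by a vector with coordinate sum zero. -/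
def VR.vec {l p : ℕ} (v : Fin l → ZMod p) (hv : ∑ i, v i = 0) : VR l p :=
  ⟨Mono.dg v hv, (Subgroup.zpowers (finRotate l)).one_mem⟩

/-- The monomial matrices given by the elements of `(ℤ/p)^l_0 ⋊ ℤ/l`. -/
noncomputable def VR.mono {R : Type} [CommRing R] {J : Type} [Fintype J] [DecidableEq J] {l p : ℕ}
    [NeZero p] {ζ : R} (hζ : ζ ^ p = 1) (ι : Fin l ↪ J) :
    VR l p →* Matrix.SpecialLinearGroup J R :=
  (Mono.mono hζ ι).comp (CW l p).subtype

theorem VR.vec_eq {l p : ℕ} (v : Fin l → ZMod p) (hv : ∑ i, v i = 0) :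
    VR.vec v hv = inc l p (Pool.Agent.P8H83.ZE.vec v hv) := rfl

section

variable {E : Type} [NormedAddCommGroup E] [NormedSpace ℝ E] [FiniteDimensional ℝ E]
  {M : Type} [TopologicalSpace M] [ChartedSpace E M] [IsManifold 𝓘(ℝ, E) ∞ M]
  [CompactSpace M] [T2Space M] [ConnectedSpace M] {p l : ℕ} [Fact p.Prime]

theorem group_triv (hT : S_TRIV) (hG : Good E M p l) {Γ : Type} [Group Γ] (φ : CW l p →* Γ)
    {α : Γ → (M ≃ₘ^∞⟮𝓘(ℝ, E), 𝓘(ℝ, E)⟯ M)} (hα : IsHom α) (g : WG.D l p) (x : M) :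
    α (φ (inc l p g)) x = x := by
  refine hT p l Fact.out hG.hl hG.hpl hG.irr E M hG.bet hG.ran (fun g x => α (φ g) x) ?_ g x
  exact
    { one := fun x => by
        show α (φ 1) x = x
        rw [map_one]; exact hα.action.one x
      mul := fun g h x => by
        show α (φ (g * h)) x = _
        rw [map_mul]; exact hα _ _ _
      smooth := fun g => hα.action.smooth _ }

theorem gen_ne (hl : l.Prime) (hl2 : 2 < l) :
    gen l p (finRotate l ⟨0, by omega⟩) ≠ gen l p ⟨0, by omega⟩ := by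
  obtain ⟨r, rfl⟩ : ∃ r, l = r + 3 := ⟨l - 3, by omega⟩
  intro h
  have hp1 : (1 : ZMod p) ≠ 0 := one_ne_zero
  have h1 := congrFun (congrArg (fun g : WG.D (r + 3) p => g.1.v) h) 0
  simp only [gen_v] at h1
  have e0 : (⟨0, by omega⟩ : Fin (r + 3)) = 0 := rfl
  rw [e0] at h1
  have e1 : finRotate (r + 3) 0 = 1 := by
    rw [finRotate_succ_apply]; simp
  have e2 : finRotate (r + 3) 1 = 2 := by
    rw [finRotate_succ_apply]; rfl
  rw [e1, e2] at h1
  have h01 : (0 : Fin (r + 3)) ≠ 1 := by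
    intro h'
    have := congrArg Fin.val h'
    simp at this
  have h02 : (0 : Fin (r + 3)) ≠ 2 := by
    intro h'
    have := congrArg Fin.val h'
    rw [show ((2 : Fin (r + 3)) : ℕ) = 2 from by
      show (2 : ℕ) % (r + 3) = 2
      exact Nat.mod_eq_of_lt (by omega)] at this
    simp at this
  rw [Pi.single_eq_of_ne h01, Pi.single_eq_of_ne h02, Pi.single_eq_same] at h1
  simp at h1

theorem group_finite (hT : S_TRIV) (hG : Good E M p l) {Γ : Type} [Group Γ] (φ : CW l p →* Γ)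
    (hφ : ∀ g : WG.D l p, φ (inc l p g) = 1 → g = 1)
    {α : Γ → (M ≃ₘ^∞⟮𝓘(ℝ, E), 𝓘(ℝ, E)⟯ M)} (hα : IsHom α) (hNS : NormalSubgroupProperty Γ) :
    (Set.range α).Finite := by
  have hlodd : Odd l := hG.hl.odd_of_ne_two (by have := hG.hl2; omega)
  apply hα.finite_range
  rcases hNS (actKer hα.action) inferInstance with h1 | h1
  · exfalso
    have hl2 := hG.hl2
    set g := gen l p ⟨0, by omega⟩ with hg
    set g' := gen l p (finRotate l ⟨0, by omega⟩) with hg'
    have h2 : φ (inc l p g) ∈ Subgroup.center Γ := h1 (fun x => group_triv hT hG φ hα g x)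
    have h3 := conj_gen (p := p) hlodd ⟨0, by omega⟩
    have h4 : φ (inc l p g) = φ (inc l p g') := by
      have h5 := congrArg φ h3
      rw [map_mul, map_mul] at h5
      have h6 := Subgroup.mem_center_iff.1 h2 (φ (rot l p hlodd))
      rw [← hg, ← hg', h6] at h5
      exact mul_right_cancel h5
    have h5 : g' = g := by
      have h6 := hφ (g' * g⁻¹) (by rw [map_mul, map_mul, map_inv, map_inv, h4, mul_inv_cancel])
      exact mul_inv_eq_one.1 h6
    exact gen_ne hG.hl hG.hl2 h5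
  · exact h1

end

section SL

variable {R : Type} [CommRing R] {p l N : ℕ}

open Matrix

/-- a normal subgroup of `SL_N(R)` which contains a diagonal matrix `ζ ^ v`, `v` not constant,
contains the elementary matrices with entries in `(1 - ζ) R` -/
theorem el_mem' (hp : p.Prime) [NeZero p] (hN : 3 ≤ N) {ζ : R} (hζ : ζ ^ p = 1)
    (ι : Fin l ↪ Fin N)
    (H : Subgroup (Matrix.SpecialLinearGroup (Fin N) R)) [H.Normal] (v : Fin l → ZMod p)
    (hv : ∑ i, v i = 0) {i j : Fin l} (hij : v i ≠ v j)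
    (hm : Mono.mono hζ ι (Mono.dg v hv) ∈ H) (c : R)
    (k n : Fin N) (hkn : k ≠ n) : el hkn ((1 - ζ) * c) ∈ H := by
  have : Fact p.Prime := ⟨hp⟩
  have hij' : ι i ≠ ι j := fun h => hij (by rw [ι.injective h])
  have h1 := Mono.mono_dg hζ ι v hv
  have h2 := mem_idealOf_diag H hN hij' hm (fun x => Mono.zp ζ (Mono.ext0 ι v x)) h1
    (Mono.zp ζ (v i - v j)) (by
      show Mono.zp ζ (Mono.ext0 ι v (ι i)) = Mono.zp ζ (v i - v j) * Mono.zp ζ (Mono.ext0 ι v (ι j))
      rw [Mono.ext0_apply, Mono.ext0_apply, ← Mono.zp_add hζ, sub_add_cancel])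
  -- `1 - ζ` is a multiple of `ζ ^ a - 1`
  set a := v i - v j with ha
  have ha0 : a ≠ 0 := sub_ne_zero.2 hij
  have h3 : Mono.zp ζ a - 1 ∣ ζ - 1 := by
    have h4 : ζ = (Mono.zp ζ a) ^ (a⁻¹).val := by
      unfold Mono.zp
      rw [← pow_mul, ← Mono.pow_mod' hζ (a.val * (a⁻¹).val)]
      have h5 : a.val * (a⁻¹).val % p = 1 := by
        have h6 : (a * a⁻¹).val = a.val * (a⁻¹).val % p := ZMod.val_mul a a⁻¹
        rw [← h6, mul_inv_cancel₀ ha0]
        exact ZMod.val_one p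
      rw [h5, pow_one]
    conv_rhs => rw [h4]
    exact sub_one_dvd_pow_sub_one _ _ |>.trans (by rfl)
  obtain ⟨b, hb⟩ := h3
  have h4 : (1 - ζ) * c ∈ idealOf H hN := by
    have h5 := (idealOf H hN).mul_mem_right (-(b * c)) h2
    have h6 : (1 - ζ) * c = (Mono.zp ζ a - 1) * -(b * c) := by
      have h7 : (1 - ζ) = - ((Mono.zp ζ a - 1) * b) := by rw [← hb]; ring
      rw [h7]; ring
    rw [h6]
    exact h5
  exact h4 k n hkn

end SL

end Pool.Agent.P8H83.ZE
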