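import Pool.Agent.P8H83.ZL.Stm

/-!
# Project ZE: statements of the packages

`l` is a prime, `p` a prime which is a primitive root modulo `l` (the cyclotomic polynomial `Φ_l` is
irreducible modulo `p`).
-/

set_option autoImplicit false

namespace Pool.Agent.P8H83.ZE

open Module Polynomial Pool.Agent.P8H83.ZL

/-! ### Package ALG: the weight argument -/

/-- A cochain complex with an operator `u` and an operator `T`. -/
structure TC (K : Type) [Field K] where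
  C : ℕ → Type
  [grp : ∀ n, AddCommGroup (C n)]
  [mod : ∀ n, Module K (C n)]
  d : ∀ n, C n →ₗ[K] C (n + 1)
  u : ∀ n, C n →ₗ[K] C n
  T : ∀ n, C n →ₗ[K] C n
  dd : ∀ n v, d (n + 1) (d n v) = 0
  du : ∀ n v, d n (u n v) = u (n + 1) (d n v)
  dT : ∀ n v, d n (T n v) = T (n + 1) (d n v)

attribute [instance] TC.grp TC.mod

/-- The coboundaries. -/
def TC.bnd {K : Type} [Field K] (G : TC K) : ∀ n, Submodule K (G.C n)
  | 0 => ⊥
  | (n + 1) => LinearMap.range (G.d n)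

/-- The numerical condition: `a` is the inverse of `p` modulo `l`, and `a ≤ l / 2` or
`m + 2 < 2 a`. -/
def Num (p l m : ℕ) : Prop :=
  m + 1 < 2 * l ∧ ∃ a : ℕ, 1 ≤ a ∧ a ≤ l ∧ a * p ≡ 1 [MOD l] ∧ (2 * a ≤ l ∨ m + 2 < 2 * a)

def S_ALG : Prop := ∀ (K : Type) [Field K] (G : TC K) (q l m N : ℕ) (ζ : K),
  1 ≤ q → 1 ≤ l → Nat.Coprime (q + 1) l → (l : K) ≠ 0 → IsPrimitiveRoot ζ l →
  (∀ n v, G.T n (G.u n v) = ζ • G.u n (G.T n v)) → (∀ n v, (G.T n ^ l) v = v) →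
  (∀ n v, (G.u n ^ (q + 1)) v = 0) →
  (∀ n v, G.u n v = 0 → ∃ w, (G.u n ^ q) w = v) →
  (∀ n v, (G.u n ^ q) v = 0 → ∃ w, G.u n w = v) →
  (∀ n, N ≤ n → ∀ v : G.C n, v = 0) →
  (∀ n v, G.d n v = 0 → G.T n v - v ∈ G.bnd n) →
  (∀ n, m < n → ∀ v, G.d n v = 0 → v ∈ G.bnd n) →
  Num (q + 1) l m →
  ∀ c : G.C 0, G.d 0 c = 0 → G.u 0 c = 0 → G.T 0 c = c → c = 0

/-! ### Package FRE: functions on a finite set are free over the shifted operator -/

/-- The shifted operator `∑ i, a i (g i - 1)` on functions on `X`. -/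
noncomputable def sop {K : Type} [Field K] {G X : Type} [Group G] (φ : G →* Equiv.Perm X)
    {ι : Type} [Fintype ι] (g : ι → G) (a : ι → K) : (X → K) →ₗ[K] (X → K) :=
  ∑ i, a i • (permR K φ (g i) - 1)

def S_FRE : Prop := ∀ (p : ℕ), p.Prime → ∀ (K : Type) [Field K] [CharP K p] (G : Type) [Group G]
  (X : Type) [Finite X] (φ : G →* Equiv.Perm X) (ι : Type) [Fintype ι] (g : ι → G) (a : ι → K),
  (∀ x y : G, x * y = y * x) → (∀ i, g i ^ p = 1) →
  (∀ x : X, ∃ χ : G →* Multiplicative (ZMod p), (∀ h, φ h x = x → χ h = 1) ∧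
    ∑ i, a i * ZMod.castHom (dvd_refl p) K (Multiplicative.toAdd (χ (g i))) ≠ 0) →
  (∀ f, (sop φ g a ^ p) f = 0) ∧
  (∀ f, sop φ g a f = 0 → ∃ h, (sop φ g a ^ (p - 1)) h = f) ∧
  (∀ f, (sop φ g a ^ (p - 1)) f = 0 → ∃ h, sop φ g a h = f)

/-! ### Packages G: the vectors with coordinate sum zero -/

/-- The element `e_i - e_{i+1}` of `(ℤ/p)^l_0`. -/
def gen (l p : ℕ) (i : Fin l) : WG.D l p :=
  ⟨⟨Pi.single i 1 - Pi.single (finRotate l i) 1, 1, by
    rw [show (fun j => (Pi.single i 1 - Pi.single (finRotate l i) 1 : Fin l → ZMod p) j) =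
      fun j => (Pi.single i 1 : Fin l → ZMod p) j - (Pi.single (finRotate l i) 1 : Fin l → ZMod p) j
      from rfl, Finset.sum_sub_distrib]
    simp, map_one _⟩, rfl⟩

/-- a proper subgroup of `(ℤ/p)^l_0` is killed by a character which does not kill the
eigenvector -/
def S_CHI : Prop := ∀ (p l : ℕ), p.Prime → l.Prime → p ≠ l → Irreducible (cyclotomic l (ZMod p)) →
  ∀ (K : Type) [Field K] [CharP K p] (ζ : K), IsPrimitiveRoot ζ l →
  ∀ H : Subgroup (WG.D l p), H ≠ ⊤ → ∃ χ : WG.D l p →* Multiplicative (ZMod p),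
    (∀ h ∈ H, χ h = 1) ∧
    ∑ i : Fin l, (ζ⁻¹) ^ (i : ℕ) *
      ZMod.castHom (dvd_refl p) K (Multiplicative.toAdd (χ (gen l p i))) ≠ 0

/-- the vectors with sum zero form an irreducible module under the rotation -/
def S_IRR : Prop := ∀ (p l : ℕ), p.Prime → l.Prime → p ≠ l → Irreducible (cyclotomic l (ZMod p)) →
  ∀ S : AddSubgroup (Fin l → ZMod p), (∀ v ∈ S, (fun i => v (finRotate l i)) ∈ S) →
  ∀ v ∈ S, v ≠ 0 → ∑ i, v i = 0 → ∀ w : Fin l → ZMod p, ∑ i, w i = 0 → w ∈ S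

/-- an operator of order `l` on a space of dimension less than `l - 1` over `𝔽_p` is trivial -/
def S_SML : Prop := ∀ (p l : ℕ), p.Prime → l.Prime → p ≠ l → Irreducible (cyclotomic l (ZMod p)) →
  ∀ (V : Type) [AddCommGroup V] [Module (ZMod p) V] [Module.Finite (ZMod p) V]
    (T : V →ₗ[ZMod p] V), (∀ v, (T ^ l) v = v) → finrank (ZMod p) V < l - 1 → ∀ v, T v = v

/-- if `p` is a primitive root modulo `l` then the cyclotomic polynomial is irreducible -/
def S_PRI : Prop := ∀ (p l : ℕ), p.Prime → l.Prime → p ≠ l → orderOf (p : ZMod l) = l - 1 →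
  Irreducible (cyclotomic l (ZMod p))

end Pool.Agent.P8H83.ZE
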