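import Pool.Agent.P8H83.ZL.StmT

/-!
# Project ZE: the cohomology of a closed manifold vanishes above the dimension
-/

set_option autoImplicit false

namespace Pool.Agent.P8H83.ZE

open Module

/-- The singular cohomology of a compact manifold with coefficients in a field vanishes above the
dimension. -/
def S_VAN : Prop := ∀ (E : Type) [NormedAddCommGroup E] [NormedSpace ℝ E] [FiniteDimensional ℝ E]
  (M : Type) [TopologicalSpace M] [ChartedSpace E M] [CompactSpace M] [T2Space M]
  (K : Type) [Field K] (n : ℕ), finrank ℝ E < n →
  finrank K (Pool.Agent.Helper381.SingularCohomology K M n) = 0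

end Pool.Agent.P8H83.ZE
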