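import Pool.Agent.P8H83.ZE.Fix
import Pool.Agent.P8H83.ZE.StmV
import Pool.Agent.H185.ZM.AbP
import Pool.Agent.H185.ZM.Ab

/-!
# The vectors act trivially
-/

set_option autoImplicit false

namespace Pool.Agent.P8H83.ZE

open Module Polynomial Pool.Agent.P8H83.ZL Pool.Agent.H185.ZM Pool.Agent.Helper381
open scoped Manifold ContDiff

/-- The range of dimensions: `m < l - 1` if `p = 2`, and `m < 2 (l - 1)` if `p` is odd and the
inverse `a` of `p` modulo `l` is smaller than `l / 2`; if `a > l / 2` then moreover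
`m + 2 < 2 a`. -/
def InR (p l m : ℕ) : Prop :=
  m < (if p = 2 then 1 else 2) * (l - 1) ∧
  ∃ a : ℕ, a < l ∧ a * p ≡ 1 [MOD l] ∧ (2 * a < l ∨ m + 2 < 2 * a)

theorem InR.num {p l m : ℕ} (hl : l.Prime) (h : InR p l m) : Num p l m := by
  obtain ⟨h1, a, h2, h3, h4⟩ := h
  have hl2 := hl.two_le
  refine ⟨?_, a, ?_, h2.le, h3, ?_⟩
  · split_ifs at h1 <;> omega
  · rcases Nat.eq_zero_or_pos a with h5 | h5
    · exfalso
      rw [h5, zero_mul] at h3
      have h6 : (1 : ℕ) ≡ 0 [MOD l] := h3.symm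
      rw [Nat.modEq_zero_iff_dvd] at h6
      have := Nat.le_of_dvd one_pos h6
      omega
    · exact h5
  · rcases h4 with h4 | h4
    · exact Or.inl h4.le
    · exact Or.inr h4

/-- for `p = 3` and `l` congruent to `2` modulo `3` the range is `m < 2 (l - 1)` -/
theorem inR_three {l m : ℕ} (hl : l % 3 = 2) (hl1 : 2 < l) (hm : m < 2 * (l - 1)) : InR 3 l m := by
  refine ⟨by rw [if_neg (by norm_num)]; exact hm, (l + 1) / 3, by omega, ?_, Or.inl (by omega)⟩
  have h1 : (l + 1) / 3 * 3 = l + 1 := by omega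
  rw [h1]
  show (l + 1) % l = 1 % l
  rw [Nat.add_mod_left]

/-- for `p = 2` the range is `m < l - 1` -/
theorem inR_two {l m : ℕ} (hl : Odd l) (hl1 : 2 < l) (hm : m < l - 1) : InR 2 l m := by
  obtain ⟨k, rfl⟩ := hl
  refine ⟨by rw [if_pos rfl]; omega, k + 1, by omega, ?_, Or.inr (by omega)⟩
  show (k + 1) * 2 % (2 * k + 1) = 1 % (2 * k + 1)
  rw [show (k + 1) * 2 = (2 * k + 1) + 1 by ring, Nat.add_mod_left]

/-- the element of a vector -/
def vec {l p : ℕ} (v : Fin l → ZMod p) (hv : ∑ i, v i = 0) : WG.D l p := ⟨Mono.dg v hv, rfl⟩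

theorem vec_v {l p : ℕ} (v : Fin l → ZMod p) (hv : ∑ i, v i = 0) : (vec v hv).1.v = v := rfl

theorem eq_vec {l p : ℕ} (g : WG.D l p) : g = vec g.1.v g.1.hv := by
  apply Subtype.ext
  apply WG.ext'
  · rfl
  · exact g.2

theorem vec_mul {l p : ℕ} {v w : Fin l → ZMod p} (hv : ∑ i, v i = 0) (hw : ∑ i, w i = 0)
    (hvw : ∑ i, (v + w) i = 0) : vec (v + w) hvw = vec v hv * vec w hw := by
  apply Subtype.ext
  apply WG.ext'
  · funext i
    show v i + w i = v i + w ((1 : Equiv.Perm (Fin l))⁻¹ i)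
    rw [inv_one]
    rfl
  · exact (mul_one (1 : Equiv.Perm (Fin l))).symm

theorem vec_zero {l p : ℕ} : vec (0 : Fin l → ZMod p) (by simp) = 1 := by
  apply Subtype.ext
  exact WG.ext' rfl rfl

theorem vec_neg {l p : ℕ} {v : Fin l → ZMod p} (hv : ∑ i, v i = 0) (hv' : ∑ i, (-v) i = 0) :
    vec (-v) hv' = (vec v hv)⁻¹ := by
  rw [eq_inv_iff_mul_eq_one, ← vec_mul (hv := hv') (hw := hv) (hvw := by simp)]
  apply Subtype.ext
  apply WG.ext'
  · funext i
    show -v i + v i = 0
    ring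
  · rfl

/-- conjugation by the inverse rotation -/
theorem conj_inv {l p : ℕ} (hl : Odd l) (v : Fin l → ZMod p) (hv : ∑ i, v i = 0)
    (hv' : ∑ i, v (finRotate l i) = 0) :
    (rot l p hl)⁻¹ * inc l p (vec v hv) * rot l p hl =
      inc l p (vec (fun i => v (finRotate l i)) hv') := by
  apply Subtype.ext
  apply WG.ext'
  · funext i
    rw [Subgroup.coe_mul, Subgroup.coe_mul, Subgroup.coe_inv, WG.mul_v, WG.mul_v, WG.inv_v,
      WG.inv_σ, rot_v, rot_σ, inc_coe, inc_coe, vec_v, vec_v]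
    simp
  · rw [Subgroup.coe_mul, Subgroup.coe_mul, Subgroup.coe_inv, WG.mul_σ, WG.mul_σ, WG.inv_σ,
      inc_coe, show (vec v hv).1.σ = 1 from rfl, mul_one, inv_mul_cancel]
    rfl

theorem card_D (l p : ℕ) (hp : p ≠ 0) (hl : 1 ≤ l) : p ^ (l - 1) ≤ Nat.card (WG.D l p) := by
  have : NeZero p := ⟨hp⟩
  have := finite_WG' l p hp
  have : Finite (WG.D l p) := Subtype.finite
  obtain ⟨r, rfl⟩ : ∃ r, l = r + 1 := ⟨l - 1, by omega⟩
  let f : (Fin r → ZMod p) → WG.D (r + 1) p := fun u =>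
    vec (Fin.cons (- ∑ i, u i) u : Fin (r + 1) → ZMod p) (by
      rw [Fin.sum_univ_succ]
      simp)
  have hf : Function.Injective f := by
    intro u w h
    have h1 : (f u).1.v = (f w).1.v := by rw [h]
    funext i
    have h2 := congrFun h1 i.succ
    exact h2
  have h := Nat.card_le_card_of_injective f hf
  rw [Nat.card_fun, Nat.card_zmod, Nat.card_eq_fintype_card, Fintype.card_fin] at h
  rw [Nat.add_sub_cancel]
  exact h

/-- The group `(ℤ/p)^l_0` acts trivially. -/
def S_TRIV : Prop := ∀ (p l : ℕ), p.Prime → l.Prime → p ≠ l →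
  Irreducible (cyclotomic l (ZMod p)) →
  ∀ (E : Type) [NormedAddCommGroup E] [NormedSpace ℝ E] [FiniteDimensional ℝ E]
  (M : Type) [TopologicalSpace M] [ChartedSpace E M] [IsManifold 𝓘(ℝ, E) ∞ M]
  [CompactSpace M] [T2Space M] [ConnectedSpace M],
  (∀ n, finrank (ZMod p) (SingularCohomology (ZMod p) M n) < l - 1) →
  InR p l (finrank ℝ E) → ∀ (a : CW l p → M → M), SmoothAction E a →
  ∀ g : WG.D l p, ∀ x, a (inc l p g) x = x

theorem triv_proof (hFIX : S_FIX) (hVAN : S_VAN) (hIRR : S_IRR) : S_TRIV := by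
  intro p l hp hl hpl hirr E _ _ _ M _ _ _ _ _ _ hb hr a ha
  have : Fact p.Prime := ⟨hp⟩
  by_contra hcon
  push Not at hcon
  obtain ⟨g₀, x₀, hg₀⟩ := hcon
  have hfinW := finite_WG' l p hp.ne_zero
  have hfinP : Finite (CW l p) := Subtype.finite
  have hfinD : Finite (WG.D l p) := Subtype.finite
  obtain ⟨y, hy⟩ := hFIX p l hp hl hpl hirr E M hb
    (fun n hn => hVAN E M (ZMod p) n hn) (hr.num hl) a ha
  -- `l` is odd
  have hl2 : l ≠ 2 := by
    rintro rfl
    have h1 := hr.1
    split_ifs at h1 with h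
    · exact hpl h
    · -- `m < 2`: the Betti numbers vanish
      have h2 := hb 0
      obtain ⟨X, φ, d, N, hXf, hXe, hX0, hdd, hd1, hdφ, hfix, hfr⟩ :=
        top_proof E M (CW 2 p) a ha (ZMod p)
      have h2' := hfr 0
      have h3 : finrank (ZMod p) (LinearMap.ker (d 0)) = 0 := by
        have h4 : finrank (ZMod p) (cobound (ZMod p) (fun n => X n → ZMod p) d 0) = 0 :=
          finrank_bot (ZMod p) (X 0 → ZMod p)
        omega
      have := hXf 0
      rw [Submodule.finrank_eq_zero] at h3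
      have h5 : (fun _ => 1 : X 0 → ZMod p) ∈ LinearMap.ker (d 0) := hd1
      rw [h3, Submodule.mem_bot] at h5
      obtain ⟨x⟩ := hX0
      exact one_ne_zero (congrFun h5 x)
  have hlodd : Odd l := hl.odd_of_ne_two hl2
  -- the kernel
  let S : AddSubgroup (Fin l → ZMod p) :=
    { carrier := {v | ∃ hv : ∑ i, v i = 0, ∀ x, a (inc l p (vec v hv)) x = x}
      add_mem' := by
        rintro v w ⟨hv, h1⟩ ⟨hw, h2⟩
        have hvw : ∑ i, (v + w) i = 0 := by
          rw [show (fun i => (v + w) i) = fun i => v i + w i from rfl, Finset.sum_add_distrib,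
            hv, hw, add_zero]
        refine ⟨hvw, fun x => ?_⟩
        rw [vec_mul hv hw, map_mul, ha.mul, h2, h1]
      zero_mem' := ⟨by simp, fun x => by
        rw [vec_zero, map_one, ha.one]⟩
      neg_mem' := by
        rintro v ⟨hv, h1⟩
        have hv' : ∑ i, (-v) i = 0 := by
          rw [show (fun i => (-v) i) = fun i => -v i from rfl, Finset.sum_neg_distrib, hv,
            neg_zero]
        refine ⟨hv', fun x => ?_⟩
        have h2 := h1 (a (inc l p (vec (-v) hv')) x)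
        rw [← ha.mul, ← map_mul, vec_neg hv hv', mul_inv_cancel, map_one, ha.one] at h2
        rw [vec_neg hv hv']
        exact h2.symm }
  have hSrot : ∀ v ∈ S, (fun i => v (finRotate l i)) ∈ S := by
    rintro v ⟨hv, h1⟩
    have hv' : ∑ i, v (finRotate l i) = 0 := by rw [Equiv.sum_comp (finRotate l) v, hv]
    refine ⟨hv', fun x => ?_⟩
    rw [← conj_inv hlodd v hv hv', ha.mul, ha.mul, h1, ← ha.mul, inv_mul_cancel, ha.one]
  have heff : ∀ g : WG.D l p, (∀ x, a (inc l p g) x = x) → g = 1 := by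
    intro g hg
    by_contra hne
    have h1 : g.1.v ≠ 0 := by
      intro h0
      apply hne
      apply Subtype.ext
      exact WG.ext' h0 g.2
    have h2 : g.1.v ∈ S := ⟨g.1.hv, fun x => by rw [← eq_vec]; exact hg x⟩
    obtain ⟨_, h3⟩ := hIRR p l hp hl hpl hirr S hSrot g.1.v h2 h1 g.1.hv g₀.1.v g₀.1.hv
    apply hg₀
    have h4 := h3 x₀
    rw [← eq_vec] at h4
    exact h4
  -- the isotropy representation
  let b : WG.D l p → M → M := fun g => a (inc l p g)
  have hb' : SmoothAction E b :=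
    { one := fun x => by show a (inc l p 1) x = x; rw [map_one]; exact ha.one x
      mul := fun g h x => by show a (inc l p (g * h)) x = _; rw [map_mul]; exact ha.mul _ _ _
      smooth := fun g => ha.smooth _ }
  obtain ⟨V, _, _, _, ρ, hV, hρ⟩ := exists_isotropy hb' heff y ⊤
    (fun q _ => hy (inc l p q) q.2)
  let _ : CommGroup (⊤ : Subgroup (WG.D l p)) :=
    { (inferInstance : Group (⊤ : Subgroup (WG.D l p))) with
      mul_comm := fun a b => Subtype.ext (D_comm _ _) }
  have hcard := card_D l p hp.ne_zero hl.one_le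
  have htop : Nat.card (⊤ : Subgroup (WG.D l p)) = Nat.card (WG.D l p) :=
    Nat.card_congr Subgroup.topEquiv.toEquiv
  have h1 := hr.1
  by_cases hp2 : p = 2
  · rw [if_pos hp2] at h1
    subst hp2
    have h2 := card_le_two_pow (finrank ℝ V) V (⊤ : Subgroup (WG.D l 2)) ρ rfl (fun q => by
      have h3 : (q : WG.D l 2) ^ 2 = 1 := D_pow _
      apply Subtype.ext
      show (q : WG.D l 2) ^ 4 = 1
      rw [show 4 = 2 * 2 by norm_num, pow_mul, h3, one_pow]) hρ
    rw [htop, hV] at h2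
    have h3 := (Nat.pow_le_pow_iff_right (by norm_num)).1 (hcard.trans h2)
    omega
  · rw [if_neg hp2] at h1
    have h2 := card_le_p_pow hp hp2 (finrank ℝ V) V (⊤ : Subgroup (WG.D l p)) ρ rfl (fun q => by
      apply Subtype.ext
      exact D_pow (q : WG.D l p)) hρ
    rw [htop, hV] at h2
    have h3 := (Nat.pow_le_pow_iff_right hp.one_lt).1 (hcard.trans h2)
    omega

end Pool.Agent.P8H83.ZE
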